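import Mathlib

/-!
# Seven points in a normed plane (MP_08f092_co): real algebra

All the inequalities between real numbers used in the proof of frozen statement S07045.
-/

set_option autoImplicit false

namespace Pool.Agent.MinkSeven

/-! ## The cyclic (three antipodal pairs) case -/

/-- Option 1 forces `c < 1/2`. -/
lemma opt1_half {a c c' : ℝ} (ha : 0 < a) (ha1 : a ≤ 1) (_hc : 0 < c) (hc' : 0 < c')
    (h : c + c' ≤ 1) (h1 : a < c' * (1 + a - 2 * c * (1 - a))) : c < 1 / 2 := by
  by_contra hcon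
  push Not at hcon
  have hk : 0 < 1 + a - 2 * c * (1 - a) := by
    by_contra hneg
    push Not at hneg
    have : c' * (1 + a - 2 * c * (1 - a)) ≤ 0 := mul_nonpos_of_nonneg_of_nonpos hc'.le hneg
    linarith
  have h2 : a < (1 - c) * (1 + a - 2 * c * (1 - a)) := by
    have : c' * (1 + a - 2 * c * (1 - a)) ≤ (1 - c) * (1 + a - 2 * c * (1 - a)) :=
      mul_le_mul_of_nonneg_right (by linarith) hk.le
    linarith
  have hc1 : c < 1 := by linarith
  have h4 : 0 < 1 - c * (1 - a) := by nlinarith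
  have h3 : (1 - 2 * c) * (1 - c * (1 - a)) ≤ 0 :=
    mul_nonpos_of_nonpos_of_nonneg (by linarith) h4.le
  nlinarith

/-- (A1) option 2, (A3) option 1, `c ≥ 1/2`. -/
lemma L1 {a b c b' c' : ℝ} (ha : 0 < a) (hb : 0 < b) (hc : 0 < c) (hb' : 0 < b') (hc' : 0 < c')
    (hcc : c + c' ≤ 1) (hb2 : b < 1 / 2) (hc2 : 1 / 2 ≤ c)
    (hI : (1 - a) * (1 - b) * (1 - c) < a * b * c)
    (A1 : a < c' * (1 + a - 2 * a * b')) (A3 : c < b' * (1 + c - 2 * b * (1 - c))) : False := by
  have hc1 : 0 < 1 - c := by linarith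
  have hk1 : 0 < 1 + a - 2 * a * b' := by
    by_contra hneg
    push Not at hneg
    have : c' * (1 + a - 2 * a * b') ≤ 0 := mul_nonpos_of_nonneg_of_nonpos hc'.le hneg
    linarith
  have hk3 : 0 < 1 + c - 2 * b * (1 - c) := by
    by_contra hneg
    push Not at hneg
    have : b' * (1 + c - 2 * b * (1 - c)) ≤ 0 := mul_nonpos_of_nonneg_of_nonpos hb'.le hneg
    linarith
  have h1 : a * (c + 2 * b' * (1 - c)) < 1 - c := by
    have : c' * (1 + a - 2 * a * b') ≤ (1 - c) * (1 + a - 2 * a * b') :=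
      mul_le_mul_of_nonneg_right (by linarith) hk1.le
    nlinarith
  have h2 : (1 - b) * (1 - c) < a * ((1 - b) * (1 - c) + b * c) := by nlinarith
  have hK : 0 < (1 - b) * (1 - c) := mul_pos (by linarith) hc1
  have hKb : 0 < (1 - b) * (1 - c) + b * c := by nlinarith [mul_pos hb hc]
  have hcb : 0 < c + 2 * b' * (1 - c) := by nlinarith [mul_pos hb' hc1]
  have h3 : (1 - b) * (1 - c) * (c + 2 * b' * (1 - c)) < ((1 - b) * (1 - c) + b * c) * (1 - c) := by
    have e1 := mul_lt_mul_of_pos_right h2 hcb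
    have e2 := mul_lt_mul_of_pos_left h1 hKb
    nlinarith
  have h4 : (1 - b) * (c + 2 * b' * (1 - c)) < (1 - b) * (1 - c) + b * c := by
    by_contra hneg
    push Not at hneg
    have := mul_le_mul_of_nonneg_right hneg hc1.le
    nlinarith
  have h5 : 2 * b' * ((1 - b) * (1 - c)) < (1 - b) * (1 - 2 * c) + b * c := by nlinarith
  have h6 : 2 * c * ((1 - b) * (1 - c)) <
      ((1 - b) * (1 - 2 * c) + b * c) * (1 + c - 2 * b * (1 - c)) := by
    have e1 := mul_lt_mul_of_pos_right h5 hk3
    have e2 := mul_lt_mul_of_pos_right A3 hK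
    nlinarith
  have h7 : 2 * (3 * c - 1) * (b - 1 / 2) * (1 - b * (1 - c)) =
      ((1 - b) * (1 - 2 * c) + b * c) * (1 + c - 2 * b * (1 - c))
        - 2 * c * ((1 - b) * (1 - c)) := by ring
  have h8 : 0 < 1 - b * (1 - c) := by nlinarith
  have h9 : 2 * (3 * c - 1) * (b - 1 / 2) ≤ 0 :=
    mul_nonpos_of_nonneg_of_nonpos (by linarith) (by linarith)
  have h10 := mul_nonpos_of_nonpos_of_nonneg h9 h8.le
  linarith

/-- (A1) option 2, (A2) option 2, (A3) option 1, `c < 1/2`. -/
lemma L2 {a b c a' b' c' : ℝ} (ha : 0 < a) (hb : 0 < b) (hc : 0 < c) (ha' : 0 < a') (hb' : 0 < b')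
    (hc' : 0 < c') (haa : a + a' ≤ 1) (hb2 : b < 1 / 2) (hc2 : c < 1 / 2)
    (hI : (1 - a) * (1 - b) * (1 - c) < a * b * c)
    (A1 : a < c' * (1 + a - 2 * a * b')) (A2 : b < a' * (1 + b - 2 * b * c'))
    (A3 : c < b' * (1 + c - 2 * b * (1 - c))) : False := by
  have hk2 : 0 < 1 + b - 2 * b * c' := by
    by_contra hneg
    push Not at hneg
    have : a' * (1 + b - 2 * b * c') ≤ 0 := mul_nonpos_of_nonneg_of_nonpos ha'.le hneg
    linarith
  have hk1 : 0 < 1 + a - 2 * a * b' := by
    by_contra hneg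
    push Not at hneg
    have : c' * (1 + a - 2 * a * b') ≤ 0 := mul_nonpos_of_nonneg_of_nonpos hc'.le hneg
    linarith
  have hk3 : 0 < 1 + c - 2 * b * (1 - c) := by nlinarith
  have hK : 0 < (1 - b) * (1 - c) := mul_pos (by linarith) (by linarith)
  have hbc : 0 < b * c := mul_pos hb hc
  have h1 : b < (1 - a) * (1 + b - 2 * b * c') := by
    have : a' * (1 + b - 2 * b * c') ≤ (1 - a) * (1 + b - 2 * b * c') :=
      mul_le_mul_of_nonneg_right (by linarith) hk2.le
    linarith
  have h2 : (1 - a) * ((1 - b) * (1 - c) + b * c) < b * c := by nlinarith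
  -- `c' < 1/2`
  have h3 : (1 - b) * (1 - c) + b * c < c * (1 + b - 2 * b * c') := by
    have e1 := mul_lt_mul_of_pos_right h1 (add_pos hK hbc)
    have e2 := mul_lt_mul_of_pos_right h2 hk2
    by_contra hneg
    push Not at hneg
    have := mul_le_mul_of_nonneg_left hneg hb.le
    nlinarith
  have h4 : c' < 1 / 2 := by
    by_contra hneg
    push Not at hneg
    have e1 : b * c ≤ 2 * (b * c) * c' := by nlinarith
    nlinarith [mul_nonneg (show (0:ℝ) ≤ 1 - 2 * c by linarith) (show (0:ℝ) ≤ 1 - b by linarith)]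
  have h5 : a * (1 + 2 * b') < 1 := by
    have := mul_lt_mul_of_pos_right h4 hk1
    nlinarith
  have h6 : (1 - b) * (1 - c) < a * ((1 - b) * (1 - c) + b * c) := by nlinarith
  have h7 : 2 * b' * ((1 - b) * (1 - c)) < b * c := by
    have e1 := mul_lt_mul_of_pos_right h6 (show (0:ℝ) < 1 + 2 * b' by linarith)
    have e2 := mul_lt_mul_of_pos_right h5 (add_pos hK hbc)
    nlinarith
  have h8 : 2 * ((1 - b) * (1 - c)) < b * (1 + c - 2 * b * (1 - c)) := by
    have e1 := mul_lt_mul_of_pos_right h7 hk3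
    have e2 := mul_lt_mul_of_pos_right A3 hK
    by_contra hneg
    push Not at hneg
    have := mul_le_mul_of_nonneg_left hneg hc.le
    nlinarith
  have h9 : 0 < (1 - 2 * c) * (2 - 3 * b + 2 * b ^ 2) + 2 * c * ((1 / 2 - b) * (2 - b)) := by
    have e1 : 0 < (1 - 2 * c) * (2 - 3 * b + 2 * b ^ 2) := mul_pos (by linarith) (by nlinarith)
    have e2 : 0 < 2 * c * ((1 / 2 - b) * (2 - b)) :=
      mul_pos (by linarith) (mul_pos (by linarith) (by linarith))
    linarith
  nlinarith

/-- All three options 2. -/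
lemma L3 {a b c a' b' c' : ℝ} (ha : 0 < a) (hb : 0 < b) (hc : 0 < c) (ha' : 0 < a') (hb' : 0 < b')
    (hc' : 0 < c') (haa : a + a' ≤ 1) (hbb : b + b' ≤ 1) (hcc : c + c' ≤ 1)
    (hI : (1 - a) * (1 - b) * (1 - c) < a * b * c)
    (A1 : a < c' * (1 + a - 2 * a * b')) (A2 : b < a' * (1 + b - 2 * b * c'))
    (A3 : c < b' * (1 + c - 2 * c * a')) : False := by
  -- parameters
  obtain ⟨u, hu⟩ : ∃ u : ℝ, a * (1 + u) = 1 := ⟨1 / a - 1, by field_simp; ring⟩
  obtain ⟨v, hv⟩ : ∃ v : ℝ, b * (1 + v) = 1 := ⟨1 / b - 1, by field_simp; ring⟩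
  obtain ⟨w, hw⟩ : ∃ w : ℝ, c * (1 + w) = 1 := ⟨1 / c - 1, by field_simp; ring⟩
  have hau : a * u = 1 - a := by linarith
  have hbv : b * v = 1 - b := by linarith
  have hcw : c * w = 1 - c := by linarith
  have hu0 : 0 < u := by
    have : 0 < a * u := by rw [hau]; linarith
    exact (mul_pos_iff_of_pos_left ha).1 this
  have hv0 : 0 < v := by
    have : 0 < b * v := by rw [hbv]; linarith
    exact (mul_pos_iff_of_pos_left hb).1 this
  have hw0 : 0 < w := by
    have : 0 < c * w := by rw [hcw]; linarith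
    exact (mul_pos_iff_of_pos_left hc).1 this
  have huvw : u * v * w < 1 := by
    have e1 : a * b * c * (u * v * w) < a * b * c * 1 := by
      calc a * b * c * (u * v * w) = (a * u) * (b * v) * (c * w) := by ring
        _ = (1 - a) * (1 - b) * (1 - c) := by rw [hau, hbv, hcw]
        _ < a * b * c * 1 := by linarith
    exact lt_of_mul_lt_mul_left e1 (by positivity)
  obtain ⟨s, hs⟩ : ∃ s : ℝ, s = 1 + u - 2 * b' := ⟨_, rfl⟩
  obtain ⟨t, ht⟩ : ∃ t : ℝ, t = 1 + v - 2 * c' := ⟨_, rfl⟩
  obtain ⟨r, hr⟩ : ∃ r : ℝ, r = 1 + w - 2 * a' := ⟨_, rfl⟩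
  have B1 : 1 < c' * (1 + s) := by
    have := mul_lt_mul_of_pos_right A1 (show (0:ℝ) < 1 + u by linarith)
    have e : c' * (1 + a - 2 * a * b') * (1 + u) = c' * (1 + s) + (a * (1 + u) - 1) * c' * (1 - 2 * b') := by
      rw [hs]; ring
    rw [e, hu] at this
    linarith
  have B2 : 1 < a' * (1 + t) := by
    have := mul_lt_mul_of_pos_right A2 (show (0:ℝ) < 1 + v by linarith)
    have e : a' * (1 + b - 2 * b * c') * (1 + v) = a' * (1 + t) + (b * (1 + v) - 1) * a' * (1 - 2 * c') := by
      rw [ht]; ring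
    rw [e, hv] at this
    linarith
  have B3 : 1 < b' * (1 + r) := by
    have := mul_lt_mul_of_pos_right A3 (show (0:ℝ) < 1 + w by linarith)
    have e : b' * (1 + c - 2 * c * a') * (1 + w) = b' * (1 + r) + (c * (1 + w) - 1) * b' * (1 - 2 * a') := by
      rw [hr]; ring
    rw [e, hw] at this
    linarith
  have C1 : c' * (1 + w) ≤ w := by
    have := mul_le_mul_of_nonneg_right hcc (show (0:ℝ) ≤ 1 + w by linarith)
    rw [add_mul, hw] at this; linarith
  have C2 : a' * (1 + u) ≤ u := by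
    have := mul_le_mul_of_nonneg_right haa (show (0:ℝ) ≤ 1 + u by linarith)
    rw [add_mul, hu] at this; linarith
  have C3 : b' * (1 + v) ≤ v := by
    have := mul_le_mul_of_nonneg_right hbb (show (0:ℝ) ≤ 1 + v by linarith)
    rw [add_mul, hv] at this; linarith
  have D1 : 1 < w * s := by
    by_contra hneg
    push Not at hneg
    have e1 := mul_le_mul_of_nonneg_left hneg hc'.le
    have e2 := mul_lt_mul_of_pos_left B1 hw0
    have e3 : w * (c' * (1 + s)) = c' * w + c' * (w * s) := by ring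
    have e4 : c' * (1 + w) = c' + c' * w := by ring
    rw [e4] at C1; rw [e3] at e2; linarith
  have D2 : 1 < u * t := by
    by_contra hneg
    push Not at hneg
    have e1 := mul_le_mul_of_nonneg_left hneg ha'.le
    have e2 := mul_lt_mul_of_pos_left B2 hu0
    have e3 : u * (a' * (1 + t)) = a' * u + a' * (u * t) := by ring
    have e4 : a' * (1 + u) = a' + a' * u := by ring
    rw [e4] at C2; rw [e3] at e2; linarith
  have D3 : 1 < v * r := by
    by_contra hneg
    push Not at hneg
    have e1 := mul_le_mul_of_nonneg_left hneg hb'.le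
    have e2 := mul_lt_mul_of_pos_left B3 hv0
    have e3 : v * (b' * (1 + r)) = b' * v + b' * (v * r) := by ring
    have e4 : b' * (1 + v) = b' + b' * v := by ring
    rw [e4] at C3; rw [e3] at e2; linarith
  have hs0 : 0 < s := (mul_pos_iff_of_pos_left hw0).1 (by linarith)
  have ht0 : 0 < t := (mul_pos_iff_of_pos_left hu0).1 (by linarith)
  have hr0 : 0 < r := (mul_pos_iff_of_pos_left hv0).1 (by linarith)
  rcases lt_or_ge s 1 with hs1 | hs1
  · have hc2 : 1 / 2 < c' := by
      by_contra hneg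
      push Not at hneg
      have := mul_le_mul_of_nonneg_right hneg (show (0:ℝ) ≤ 1 + s by linarith)
      linarith
    have e1 : t < v := by rw [ht]; linarith
    have e2 : 1 < u * v := lt_trans D2 (mul_lt_mul_of_pos_left e1 hu0)
    have e3 : 1 < w := by
      have := mul_lt_mul_of_pos_left hs1 hw0
      linarith
    have e4 : 1 * 1 < (u * v) * w := mul_lt_mul'' e2 e3 zero_le_one zero_le_one
    linarith
  rcases lt_or_ge r 1 with hr1 | hr1
  · have hb2 : 1 / 2 < b' := by
      by_contra hneg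
      push Not at hneg
      have := mul_le_mul_of_nonneg_right hneg (show (0:ℝ) ≤ 1 + r by linarith)
      linarith
    have e1 : s < u := by rw [hs]; linarith
    have e2 : 1 < w * u := lt_trans D1 (mul_lt_mul_of_pos_left e1 hw0)
    have e3 : 1 < v := by
      have := mul_lt_mul_of_pos_left hr1 hv0
      linarith
    have e4 : 1 * 1 < (w * u) * v := mul_lt_mul'' e2 e3 zero_le_one zero_le_one
    have e5 : (w * u) * v = u * v * w := by ring
    linarith
  rcases lt_or_ge t 1 with ht1 | ht1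
  · have ha2 : 1 / 2 < a' := by
      by_contra hneg
      push Not at hneg
      have := mul_le_mul_of_nonneg_right hneg (show (0:ℝ) ≤ 1 + t by linarith)
      linarith
    have e1 : r < w := by rw [hr]; linarith
    have e2 : 1 < v * w := lt_trans D3 (mul_lt_mul_of_pos_left e1 hv0)
    have e3 : 1 < u := by
      have := mul_lt_mul_of_pos_left ht1 hu0
      linarith
    have e4 : 1 * 1 < (v * w) * u := mul_lt_mul'' e2 e3 zero_le_one zero_le_one
    have e5 : (v * w) * u = u * v * w := by ring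
    linarith
  · have F1 : 1 + s < u * (1 + r) := by
      have e1 : u * (1 + r) = (s - 1) * (1 + r) + 2 * (b' * (1 + r)) := by
        have : u = s - 1 + 2 * b' := by rw [hs]; ring
        rw [this]; ring
      have e2 := mul_nonneg (show (0:ℝ) ≤ s - 1 by linarith) (show (0:ℝ) ≤ r - 1 by linarith)
      have e3 : (s - 1) * (1 + r) = (s - 1) * (r - 1) + 2 * (s - 1) := by ring
      rw [e1, e3]; linarith
    have F2 : 1 + r < w * (1 + t) := by
      have e1 : w * (1 + t) = (r - 1) * (1 + t) + 2 * (a' * (1 + t)) := by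
        have : w = r - 1 + 2 * a' := by rw [hr]; ring
        rw [this]; ring
      have e2 := mul_nonneg (show (0:ℝ) ≤ r - 1 by linarith) (show (0:ℝ) ≤ t - 1 by linarith)
      have e3 : (r - 1) * (1 + t) = (r - 1) * (t - 1) + 2 * (r - 1) := by ring
      rw [e1, e3]; linarith
    have F3 : 1 + t < v * (1 + s) := by
      have e1 : v * (1 + s) = (t - 1) * (1 + s) + 2 * (c' * (1 + s)) := by
        have : v = t - 1 + 2 * c' := by rw [ht]; ring
        rw [this]; ring
      have e2 := mul_nonneg (show (0:ℝ) ≤ t - 1 by linarith) (show (0:ℝ) ≤ s - 1 by linarith)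
      have e3 : (t - 1) * (1 + s) = (t - 1) * (s - 1) + 2 * (t - 1) := by ring
      rw [e1, e3]; linarith
    have G1 : (1 + s) * (1 + r) < (u * (1 + r)) * (w * (1 + t)) :=
      mul_lt_mul'' F1 F2 (by linarith) (by linarith)
    have G2 : (1 + s) * (1 + r) * (1 + t) < (u * (1 + r)) * (w * (1 + t)) * (v * (1 + s)) :=
      mul_lt_mul'' G1 F3 (by positivity) (by linarith)
    have G3 : (1 + s) * (1 + r) * (1 + t) * 1 < (1 + s) * (1 + r) * (1 + t) * (u * v * w) := by
      have e1 : (1 + s) * (1 + r) * (1 + t) * (u * v * w) =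
        (u * (1 + r)) * (w * (1 + t)) * (v * (1 + s)) := by ring
      rw [e1]; linarith
    have := lt_of_mul_lt_mul_left G3 (by positivity)
    linarith

/-- Mixed pattern: (A1) option 2, (A3) option 1, (A2) any option. -/
lemma mixed {a b c a' b' c' : ℝ} (ha : 0 < a) (hb : 0 < b) (hc : 0 < c) (ha' : 0 < a')
    (hb' : 0 < b') (hc' : 0 < c') (haa : a + a' ≤ 1) (hbb : b + b' ≤ 1) (hcc : c + c' ≤ 1)
    (hI : (1 - a) * (1 - b) * (1 - c) < a * b * c)
    (A1 : a < c' * (1 + a - 2 * a * b'))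
    (A2 : b < a' * (1 + b - 2 * a * (1 - b)) ∨ b < a' * (1 + b - 2 * b * c'))
    (A3 : c < b' * (1 + c - 2 * b * (1 - c))) : False := by
  have hb2 : b < 1 / 2 := opt1_half hc (by linarith) hb hb' hbb A3
  rcases le_or_gt (1 / 2) c with hc2 | hc2
  · exact L1 ha hb hc hb' hc' hcc hb2 hc2 hI A1 A3
  · rcases A2 with A2 | A2
    · have ha2 : a < 1 / 2 := opt1_half hb (by linarith) ha ha' haa A2
      have e1 : a * b * c ≤ (1 - a) * (1 - b) * (1 - c) := by
        apply mul_le_mul (mul_le_mul (by linarith) (by linarith) hb.le (by linarith))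
          (by linarith) hc.le (mul_nonneg (by linarith) (by linarith))
      linarith
    · exact L2 ha hb hc ha' hb' hc' haa hb2 hc2 hI A1 A2 A3

/-- The cyclic algebraic lemma. -/
theorem cyc_alg {a b c a' b' c' : ℝ} (ha : 0 < a) (hb : 0 < b) (hc : 0 < c) (ha' : 0 < a')
    (hb' : 0 < b') (hc' : 0 < c') (haa : a + a' ≤ 1) (hbb : b + b' ≤ 1) (hcc : c + c' ≤ 1)
    (hI : (1 - a) * (1 - b) * (1 - c) < a * b * c)
    (A1 : a < c' * (1 + a - 2 * c * (1 - a)) ∨ a < c' * (1 + a - 2 * a * b'))
    (A2 : b < a' * (1 + b - 2 * a * (1 - b)) ∨ b < a' * (1 + b - 2 * b * c'))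
    (A3 : c < b' * (1 + c - 2 * b * (1 - c)) ∨ c < b' * (1 + c - 2 * c * a')) : False := by
  rcases A1 with A1 | A1
  · have hc2 : c < 1 / 2 := opt1_half ha (by linarith) hc hc' hcc A1
    rcases A2 with A2 | A2
    · have ha2 : a < 1 / 2 := opt1_half hb (by linarith) ha ha' haa A2
      rcases A3 with A3 | A3
      · have hb2 : b < 1 / 2 := opt1_half hc (by linarith) hb hb' hbb A3
        have e1 : a * b * c ≤ (1 - a) * (1 - b) * (1 - c) := by
          apply mul_le_mul (mul_le_mul (by linarith) (by linarith) hb.le (by linarith))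
            (by linarith) hc.le (mul_nonneg (by linarith) (by linarith))
        linarith
      · -- (A3) option 2, (A2) option 1
        exact mixed hc ha hb hc' ha' hb' hcc haa hbb (by linarith) A3 (Or.inl A1) A2
    · -- (A2) option 2, (A1) option 1
      exact mixed hb hc ha hb' hc' ha' hbb hcc haa (by linarith) A2 A3 A1
  · rcases A3 with A3 | A3
    · exact mixed ha hb hc ha' hb' hc' haa hbb hcc hI A1 A2 A3
    · rcases A2 with A2 | A2
      · exact mixed hc ha hb hc' ha' hb' hcc haa hbb (by linarith) A3 (Or.inr A1) A2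
      · exact L3 ha hb hc ha' hb' hc' haa hbb hcc hI A1 A2 A3

end Pool.Agent.MinkSeven
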