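import Pool.Agent.MinkSeven.Alg

/-!
# Seven points in a normed plane (MP_08f092_co): real algebra, apex case
-/

set_option autoImplicit false

namespace Pool.Agent.MinkSeven

/-- (good) edge condition excludes option `a`. -/
lemma stepB {p q r s : ℝ} (hp : 0 < p) (hp2 : p < 1 / 2) (hq : 0 < q) (hq1 : q ≤ 1)
    (hs : 0 < s) (hs1 : s ≤ 1) (h1 : p * (1 - s) ≤ q * s)
    (h2 : s < r * (1 + s - 2 * p * (1 - s)))
    (h3 : q < p * (1 + q - 2 * r * (1 - q))) : False := by
  have hk : 0 < 1 + s - 2 * p * (1 - s) := by nlinarith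
  have e1 : 2 * p * r * (1 - q) < p - q * (1 - p) := by nlinarith
  have e2 := mul_lt_mul_of_pos_right e1 hk
  have e3 : 2 * p * (1 - q) * s ≤ 2 * p * (1 - q) * (r * (1 + s - 2 * p * (1 - s))) :=
    mul_le_mul_of_nonneg_left h2.le (mul_nonneg (by linarith) (by linarith))
  have e4 : 0 < (1 - 2 * p) * (p * (1 - s) - q * (1 + s - p + p * s)) := by
    have : (1 - 2 * p) * (p * (1 - s) - q * (1 + s - p + p * s)) =
      (p - q * (1 - p)) * (1 + s - 2 * p * (1 - s)) - 2 * p * (1 - q) * s := by ring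
    rw [this]; nlinarith
  have e5 : p * (1 - s) - q * (1 + s - p + p * s) < 0 := by
    have : 0 < q * (1 - p + p * s) := mul_pos hq (by nlinarith [mul_pos hp hs])
    nlinarith
  have e6 : (1 - 2 * p) * (p * (1 - s) - q * (1 + s - p + p * s)) < 0 :=
    mul_neg_of_pos_of_neg (by linarith) e5
  linarith

/-- remaining case of option `a`. -/
lemma stepA {p t w : ℝ} (hp : 0 < p) (hp2 : p < 1 / 2) (hw : 0 < w) (hw1 : w ≤ 1)
    (h1 : w < t * (1 + w - 2 * p * w)) (h2 : t * (1 - p) < p * w) : False := by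
  have hk : 0 < 1 + w - 2 * p * w := by nlinarith
  have e1 : w * (1 - p) < t * (1 + w - 2 * p * w) * (1 - p) :=
    mul_lt_mul_of_pos_right h1 (by linarith)
  have e2 : t * (1 - p) * (1 + w - 2 * p * w) < p * w * (1 + w - 2 * p * w) :=
    mul_lt_mul_of_pos_right h2 hk
  have e3 : w * (1 - p) < w * (p * (1 + w - 2 * p * w)) := by nlinarith
  have e4 : 1 - p < p * (1 + w - 2 * p * w) := lt_of_mul_lt_mul_left e3 hw.le
  have e5 : (1 - 2 * p) * 1 < (1 - 2 * p) * (p * w) := by nlinarith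
  have e6 : 1 < p * w := lt_of_mul_lt_mul_left e5 (by linarith)
  nlinarith

/-- `c`,`c'` combination, `q ≤ 1/2`. -/
lemma cc1 {p q β x y : ℝ} (hp : 0 < p) (hp2 : p < 1 / 2) (hq : 0 < q) (hq2 : q ≤ 1 / 2)
    (hβ : β * (p + q - p * q) = p * q) (hx : q < x * (1 + q)) (hy : p < y * (1 + p))
    (h : x + y < 2 * β) : False := by
  have hd : 0 < p + q - p * q := by nlinarith
  have hβ0 : 0 < β := by
    by_contra hneg
    push Not at hneg
    have := mul_nonpos_of_nonpos_of_nonneg hneg hd.le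
    nlinarith [mul_pos hp hq]
  -- multiply by (1+p)(1+q)
  have e1 : q * (1 + p) + p * (1 + q) < 2 * β * ((1 + p) * (1 + q)) := by
    have a1 := mul_lt_mul_of_pos_right hx (show (0:ℝ) < 1 + p by linarith)
    have a2 := mul_lt_mul_of_pos_right hy (show (0:ℝ) < 1 + q by linarith)
    have a3 := mul_lt_mul_of_pos_right h (show (0:ℝ) < (1 + p) * (1 + q) by positivity)
    nlinarith
  have e2 : (q * (1 + p) + p * (1 + q)) * (p + q - p * q) < 2 * (p * q) * ((1 + p) * (1 + q)) := by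
    have a1 := mul_lt_mul_of_pos_right e1 hd
    have a2 : 2 * β * ((1 + p) * (1 + q)) * (p + q - p * q) =
      2 * (β * (p + q - p * q)) * ((1 + p) * (1 + q)) := by ring
    rw [a2, hβ] at a1
    exact a1
  -- (p+q)^2 - 4 p q ≥ 0 and (p+q) ≥ ... : contradiction
  have e3 : 0 ≤ (p - q) ^ 2 := sq_nonneg _
  -- S = p+q, T = p q : (S+2T)(S-T) < 2T(1+S+T)  i.e. S^2 - T S - 4 T^2 - 2 T < 0
  have e4 : (p + q) ^ 2 - (p * q) * (p + q) - 4 * (p * q) ^ 2 - 2 * (p * q) < 0 := by nlinarith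
  -- S ≥ 4T since p,q ≤ 1/2 : q(1-2p) + p(1-2q) ≥ 0
  have e5 : 4 * (p * q) ≤ p + q := by nlinarith
  nlinarith [mul_pos hp hq, mul_nonneg (show (0:ℝ) ≤ p + q - 4 * (p * q) by linarith)
    (mul_pos hp hq).le, mul_pos (mul_pos hp hq) hp, mul_pos (mul_pos hp hq) hq]

/-- `c`,`c'` combination, second bound at least `1/2`. -/
lemma cc2 {p q β x y : ℝ} (hp : 0 < p) (hp2 : p < 1 / 2) (hq : 0 < q) (hq1 : q ≤ 1)
    (hβ : β * (p + q - p * q) = p * q) (hx : q < x * (1 + q)) (hy : 1 / 2 < y)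
    (h : x + y < 2 * β) : False := by
  have hd : 0 < p + q - p * q := by nlinarith
  -- β (1+q) < q
  have e1 : β * (1 + q) < q := by
    have e2 : β * (1 + q) * (p + q - p * q) < q * (p + q - p * q) := by
      have : β * (1 + q) * (p + q - p * q) = β * (p + q - p * q) * (1 + q) := by ring
      rw [this, hβ]
      nlinarith [mul_pos hp hq, mul_pos hq (show (0:ℝ) < 1 - 2 * p by linarith)]
    exact lt_of_mul_lt_mul_right e2 hd.le
  have e3 : q + (1 / 2) * (1 + q) < 2 * β * (1 + q) := by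
    have a1 := mul_lt_mul_of_pos_right h (show (0:ℝ) < 1 + q by linarith)
    have a2 := mul_lt_mul_of_pos_right hy (show (0:ℝ) < 1 + q by linarith)
    nlinarith
  nlinarith

end Pool.Agent.MinkSeven
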