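import Pool.Agent.MinkSeven.AlgApex

/-!
# Seven points in a normed plane (MP_08f092_co): real algebra, assembly of the apex case
-/

set_option autoImplicit false

namespace Pool.Agent.MinkSeven

lemma lower_big {q r s b : ℝ} (hq : 0 < q) (hr : 0 < r) (hs : 0 < s) (hb : 0 < b)
    (hb21 : b * (r + s - r * s) = r) (hqs : q * s ≤ 1) (hr2 : 1 / 2 < r) : q < b * (1 + q) := by
  have e1 : 1 < b * (1 + s) := by
    have : r * 1 < r * (b * (1 + s)) := by
      have e2 : 0 < b * (s * (2 * r - 1)) := mul_pos hb (mul_pos hs (by linarith))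
      nlinarith
    exact lt_of_mul_lt_mul_left this hr.le
  have e3 : q * (1 + s) ≤ 1 + q := by linarith
  have e4 := mul_le_mul_of_nonneg_left e3 hb.le
  nlinarith

lemma lower_half {r s b m : ℝ} (hr : 0 < r) (hb : 0 < b)
    (hb21 : b * (r + s - r * s) = r) (hm : 0 ≤ m) (h : s < r * (1 + s - 2 * m)) : 1 / 2 < b := by
  have e1 : r + s - r * s < 2 * r := by nlinarith [mul_nonneg hr.le hm]
  have e2 := mul_lt_mul_of_pos_left e1 hb
  rw [hb21] at e2
  have e3 : r * 1 < r * (2 * b) := by linarith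
  have := lt_of_mul_lt_mul_left e3 hr.le
  linarith

lemma key_b {p q s t w β b12 : ℝ} (hp : 0 < p) (hq : 0 < q)
    (hβ : β * (p + q - p * q) = p * q) (hb12 : b12 * (p + q - p * q) = p)
    (hd : 0 < p + q - p * q) (hμ : 0 ≤ s + w - 1)
    (e1 : 1 < 2 * (b12 - s * β)) (G3 : p < q * (1 + p - 2 * t * (1 - p))) :
    t * (1 - p) < p * w := by
  have e2 := mul_lt_mul_of_pos_right e1 hd
  have e3 : 2 * (b12 - s * β) * (p + q - p * q) =
    2 * (b12 * (p + q - p * q) - s * (β * (p + q - p * q))) := by ring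
  rw [e3, hb12, hβ] at e2
  have e4 : q * (1 - p + 2 * s * p) < q * (1 + p - 2 * t * (1 - p)) := by linarith
  have e5 := lt_of_mul_lt_mul_left e4 hq.le
  have e6 := mul_nonneg hp.le hμ
  linarith

lemma key_c {p q t w β b13 : ℝ} (hq : 0 < q)
    (hβ : β * (p + q - p * q) = p * q) (hb13 : b13 * (p + q - p * q) = q)
    (hd : 0 < p + q - p * q)
    (e1 : 1 < 2 * (w * β + 1 - b13)) (G3 : p < q * (1 + p - 2 * t * (1 - p))) :
    t * (1 - p) < p * w := by
  have e2 := mul_lt_mul_of_pos_right e1 hd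
  have e3 : 2 * (w * β + 1 - b13) * (p + q - p * q) =
    2 * (w * (β * (p + q - p * q)) + (p + q - p * q) - b13 * (p + q - p * q)) := by ring
  rw [e3, hb13, hβ] at e2
  have e4 : q * (1 + p - 2 * w * p) < q * (1 + p - 2 * t * (1 - p)) := by linarith
  have e5 := lt_of_mul_lt_mul_left e4 hq.le
  linarith

/-- The apex case when the first side edge is (good). -/
theorem apex_good {p q r s t w β b12 b13 b21 b31 : ℝ}
    (hp : 0 < p) (hq : 0 < q) (hr : 0 < r) (hs : 0 < s) (ht : 0 < t) (hw : 0 < w)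
    (hpr : p + r ≤ 1) (hqt : q + t ≤ 1) (hsw : 1 ≤ s + w) (hqs : q * s ≤ 1) (hpw : p * w ≤ 1)
    (hβ0 : 0 < β) (hβ : β * (p + q - p * q) = p * q) (hb12 : b12 * (p + q - p * q) = p)
    (hb13 : b13 * (p + q - p * q) = q) (hsum : b12 + b13 = 1 + β)
    (h21 : 0 < b21) (h31 : 0 < b31)
    (hb21 : b21 * (r + s - r * s) = r) (hb31 : b31 * (t + w - t * w) = t)
    (G1 : (1 < s ∧ 1 / 2 < r) ∨
      (s ≤ 1 ∧ p * (1 - s) ≤ q * s ∧ s < r * (1 + s - 2 * p * (1 - s))))
    (G2 : (1 < w ∧ 1 / 2 < t) ∨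
      (w ≤ 1 ∧ q * (1 - w) ≤ p * w ∧ w < t * (1 + w - 2 * q * (1 - w))) ∨
      (w ≤ 1 ∧ p * w ≤ q * (1 - w) ∧ w < t * (1 + w - 2 * p * w)))
    (G3 : p < q * (1 + p - 2 * t * (1 - p)) ∨
      1 + b21 * (s + w - 1) < 2 * (b13 - w * β) ∨
      1 + b31 * (s + w - 1) < 2 * (s * β + 1 - b12))
    (G4 : q < p * (1 + q - 2 * r * (1 - q)) ∨
      1 + b31 * (s + w - 1) < 2 * (b12 - s * β) ∨
      1 + b21 * (s + w - 1) < 2 * (w * β + 1 - b13)) : False := by
  have hq1 : q ≤ 1 := by linarith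
  have hp1 : p ≤ 1 := by linarith
  have hd : 0 < p + q - p * q := by nlinarith
  have hμ : 0 ≤ s + w - 1 := by linarith
  have hp2 : p < 1 / 2 := by
    rcases G1 with ⟨_, g⟩ | ⟨g1, _, g3⟩
    · linarith
    · exact opt1_half hs g1 hp hr hpr g3
  have m21 : 0 ≤ b21 * (s + w - 1) := mul_nonneg h21.le hμ
  have m31 : 0 ≤ b31 * (s + w - 1) := mul_nonneg h31.le hμ
  -- option a' is impossible
  rcases G4 with G4 | G4
  · rcases G1 with ⟨_, g⟩ | ⟨g1, g2, g3⟩
    · have e0 : 0 ≤ (1 - q) * (2 * r - 1) := mul_nonneg (by linarith) (by linarith)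
      have e1 : p * (1 + q - 2 * r * (1 - q)) ≤ p * (2 * q) :=
        mul_le_mul_of_nonneg_left (by linarith) hp.le
      have e2 : 0 < q * (1 - 2 * p) := mul_pos hq (by linarith)
      linarith
    · exact stepB hp hp2 hq hq1 hs g1 g2 g3 G4
  rcases G3 with G3 | G3
  · -- option a
    rcases G2 with ⟨_, g⟩ | ⟨g1, g2, g3⟩ | ⟨g1, g2, g3⟩
    · have hq2 : q < 1 / 2 := by linarith
      have e0 : 0 ≤ (1 - p) * (2 * t - 1) := mul_nonneg (by linarith) (by linarith)
      have e1 : q * (1 + p - 2 * t * (1 - p)) ≤ q * (2 * p) :=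
        mul_le_mul_of_nonneg_left (by linarith) hq.le
      have e2 : 0 < p * (1 - 2 * q) := mul_pos hp (by linarith)
      linarith
    · have hq2 : q < 1 / 2 := opt1_half hw g1 hq ht hqt g3
      exact stepB hq hq2 hp hp1 hw g1 g2 g3 G3
    · have key : t * (1 - p) < p * w := by
        rcases G4 with G4 | G4
        · exact key_b hp hq hβ hb12 hd hμ (by linarith) G3
        · exact key_c hq hβ hb13 hd (by linarith) G3
      exact stepA hp hp2 hw g1 g3 key
  · rcases G3 with G3 | G3 <;> rcases G4 with G4 | G4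
    · have : 0 ≤ (s + w - 1) * β := mul_nonneg hμ hβ0.le
      linarith
    · linarith
    · linarith
    · -- c , c'
      have e1 : (b21 + b31) * (s + w - 1) < 2 * β * (s + w - 1) := by linarith
      have e2 : b21 + b31 < 2 * β := lt_of_mul_lt_mul_right e1 hμ
      have x1 : q < b21 * (1 + q) := by
        rcases G1 with ⟨_, g⟩ | ⟨g1, _, g3⟩
        · exact lower_big hq hr hs h21 hb21 hqs g
        · have := lower_half (m := p * (1 - s)) hr h21 hb21 (mul_nonneg hp.le (by linarith))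
            (by linarith)
          have h5 := mul_pos (show (0:ℝ) < b21 - 1 / 2 by linarith) (show (0:ℝ) < 1 + q by linarith)
          linarith
      rcases G2 with ⟨_, g⟩ | G2
      · have x2 : p < b31 * (1 + p) := lower_big hp ht hw h31 hb31 hpw g
        exact cc1 hp hp2 hq (by linarith) hβ x1 x2 e2
      · have x3 : 1 / 2 < b31 := by
          rcases G2 with ⟨g1, _, g3⟩ | ⟨g1, _, g3⟩
          · exact lower_half (m := q * (1 - w)) ht h31 hb31 (mul_nonneg hq.le (by linarith))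
              (by linarith)
          · exact lower_half (m := p * w) ht h31 hb31 (mul_nonneg hp.le hw.le) (by linarith)
        exact cc2 hp hp2 hq hq1 hβ x1 x3 e2

/-- The apex case, real algebra. -/
theorem apex_alg {p q r s t w β b12 b13 b21 b31 : ℝ}
    (hp : 0 < p) (hq : 0 < q) (hr : 0 < r) (hs : 0 < s) (ht : 0 < t) (hw : 0 < w)
    (hpr : p + r ≤ 1) (hqt : q + t ≤ 1) (hsw : 1 ≤ s + w) (hqs : q * s ≤ 1) (hpw : p * w ≤ 1)
    (hβ0 : 0 < β) (hβ : β * (p + q - p * q) = p * q) (hb12 : b12 * (p + q - p * q) = p)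
    (hb13 : b13 * (p + q - p * q) = q) (hsum : b12 + b13 = 1 + β)
    (h21 : 0 < b21) (h31 : 0 < b31)
    (hb21 : b21 * (r + s - r * s) = r) (hb31 : b31 * (t + w - t * w) = t)
    (G1 : (1 < s ∧ 1 / 2 < r) ∨
      (s ≤ 1 ∧ p * (1 - s) ≤ q * s ∧ s < r * (1 + s - 2 * p * (1 - s))) ∨
      (s ≤ 1 ∧ q * s ≤ p * (1 - s) ∧ s < r * (1 + s - 2 * q * s)))
    (G2 : (1 < w ∧ 1 / 2 < t) ∨
      (w ≤ 1 ∧ q * (1 - w) ≤ p * w ∧ w < t * (1 + w - 2 * q * (1 - w))) ∨
      (w ≤ 1 ∧ p * w ≤ q * (1 - w) ∧ w < t * (1 + w - 2 * p * w)))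
    (G3 : p < q * (1 + p - 2 * t * (1 - p)) ∨
      1 + b21 * (s + w - 1) < 2 * (b13 - w * β) ∨
      1 + b31 * (s + w - 1) < 2 * (s * β + 1 - b12))
    (G4 : q < p * (1 + q - 2 * r * (1 - q)) ∨
      1 + b31 * (s + w - 1) < 2 * (b12 - s * β) ∨
      1 + b21 * (s + w - 1) < 2 * (w * β + 1 - b13)) : False := by
  -- is the first edge good?
  by_cases hgood : (1 < s ∧ 1 / 2 < r) ∨
      (s ≤ 1 ∧ p * (1 - s) ≤ q * s ∧ s < r * (1 + s - 2 * p * (1 - s)))
  · exact apex_good hp hq hr hs ht hw hpr hqt hsw hqs hpw hβ0 hβ hb12 hb13 hsum h21 h31 hb21 hb31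
      hgood G2 G3 G4
  · -- then the second one is
    have G1' : s ≤ 1 ∧ q * s ≤ p * (1 - s) ∧ s < r * (1 + s - 2 * q * s) := by tauto
    obtain ⟨g1, g2, g3⟩ := G1'
    have g2' : q * s < p * (1 - s) := by
      rcases lt_or_eq_of_le g2 with h | h
      · exact h
      · exfalso
        apply hgood
        right
        refine ⟨g1, h.ge, ?_⟩
        have : 2 * p * (1 - s) = 2 * q * s := by linarith
        rw [this]; exact g3
    have hgood2 : (1 < w ∧ 1 / 2 < t) ∨
        (w ≤ 1 ∧ q * (1 - w) ≤ p * w ∧ w < t * (1 + w - 2 * q * (1 - w))) := by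
      rcases G2 with h | h | ⟨h1, h2, _⟩
      · exact Or.inl h
      · exact Or.inr h
      · exfalso
        -- p w ≤ q (1-w), q s < p (1-s): p q s w < p q (1-s)(1-w)
        have hw1 : 0 ≤ 1 - w := by linarith
        have k1 : (p * w) * (q * s) ≤ (q * (1 - w)) * (q * s) :=
          mul_le_mul_of_nonneg_right h2 (mul_pos hq hs).le
        have k2 : (q * (1 - w)) * (q * s) ≤ (q * (1 - w)) * (p * (1 - s)) :=
          mul_le_mul_of_nonneg_left g2 (mul_nonneg hq.le hw1)
        have k3 : (p * q) * (s * w) ≤ (p * q) * ((1 - s) * (1 - w)) := by linarith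
        have k4 := le_of_mul_le_mul_left k3 (mul_pos hp hq)
        -- s w ≤ (1-s)(1-w) gives s + w ≤ 1, so s + w = 1
        have k5 : s + w = 1 := by linarith
        have k6 : w = 1 - s := by linarith
        rw [k6] at h2
        have k7 : 1 - (1 - s) = s := by ring
        rw [k7] at h2
        linarith
    exact apex_good (p := q) (q := p) (r := t) (s := w) (t := r) (w := s) (β := β) (b12 := b13)
      (b13 := b12) (b21 := b31) (b31 := b21) hq hp ht hw hr hs hqt hpr (by linarith) hpw hqs hβ0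
      (by linarith) (by linarith) (by linarith) (by linarith) h31 h21 hb31 hb21 hgood2 G1
      (by
        rcases G4 with h | h | h
        · left; exact h
        · right; left; linarith
        · right; right; linarith)
      (by
        rcases G3 with h | h | h
        · left; exact h
        · right; left; linarith
        · right; right; linarith)

end Pool.Agent.MinkSeven
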