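import Pool.Agent.MinkSeven.Cyc
import Pool.Agent.MinkSeven.AlgApex2

/-!
# Seven points in a normed plane (MP_08f092_co): the apex configuration
-/

set_option autoImplicit false

namespace Pool.Agent.MinkSeven

variable {E : Type*} [NormedAddCommGroup E] [NormedSpace ℝ E]

/-- The edge `A2 B1` (three options). -/
lemma edge3 {c₀ : ℝ} (hc : 0 < c₀) {A1 A2 A3 B1 B2 B3 : E}
    {β1 b12 b13 β2 b21 b23 β3 b31 b32 : ℝ}
    (hB1 : B1 = -β1 • A1 + b12 • A2 + b13 • A3)
    (hB2 : B2 = b21 • A1 + -β2 • A2 + b23 • A3)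
    (hB3 : B3 = b31 • A1 + b32 • A2 + -β3 • A3)
    (s1 : b12 + b13 = 1 + β1) (s2 : b21 + b23 = 1 + β2) (s3 : b31 + b32 = 1 + β3)
    (hβ1 : 0 < β1) (hβ2 : 0 < β2) (hβ3 : 0 < β3)
    (h21 : 0 < b21) (h23 : 0 < b23) (h31 : 0 < b31) (h32 : 0 < b32)
    (g12 : b12 ≤ 1)
    (n13 : ‖A1 - A3‖ ≤ c₀) (m2 : ‖A2 - B2‖ ≤ c₀) (m3 : ‖B3 - A3‖ ≤ c₀) (m32 : ‖B3 - B2‖ ≤ c₀)
    (E1 : c₀ < 2 * ‖A2 - B1‖) :
    b32 < 2 * (β1 * b32 + (1 - b12) * (1 - b31)) ∨
    b31 * b23 + b21 * β3 < 2 * (b31 * b13 - β1 * β3) ∨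
    b31 * β2 + b32 * b21 < 2 * (β1 * β2 + (1 - b12) * b21) := by
  have e13 : b13 = 1 + β1 - b12 := by linarith
  have e23 : b23 = 1 + β2 - b21 := by linarith
  have eβ3 : β3 = b31 + b32 - 1 := by linarith
  rcases le_or_gt 0 (β1 * b32 - (1 - b12) * b31) with h | h
  · left
    have := cone (A1 := A1) (A2 := A2) (A3 := A3) (U := A1 - A3) (V := B3 - A3) (Z := A2 - B1)
      (u1 := 1) (u2 := 0) (v1 := b31) (v2 := b32) (z1 := β1) (z2 := 1 - b12) hc
      (by module) (by rw [hB3, eβ3]; module) (by rw [hB1, e13]; module) n13 m3 E1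
      (by linarith) (by linarith) (by linarith)
    linarith
  · right
    rcases le_or_gt 0 (β1 * (b32 + β2) - (1 - b12) * (b31 - b21)) with h' | h'
    · right
      have := cone (A1 := A1) (A2 := A2) (A3 := A3) (U := B3 - A3) (V := B3 - B2) (Z := A2 - B1)
        (u1 := b31) (u2 := b32) (v1 := b31 - b21) (v2 := b32 + β2) (z1 := β1) (z2 := 1 - b12) hc
        (by rw [hB3, eβ3]; module) (by rw [hB3, hB2, eβ3, e23]; module)
        (by rw [hB1, e13]; module) m3 m32 E1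
        (by linarith) (by linarith) (by
          have := mul_pos h31 hβ2
          have := mul_pos h32 h21
          linarith)
      linarith
    · left
      have := cone (A1 := A1) (A2 := A2) (A3 := A3) (U := B3 - B2) (V := A2 - B2) (Z := A2 - B1)
        (u1 := b31 - b21) (u2 := b32 + β2) (v1 := -b21) (v2 := 1 + β2) (z1 := β1) (z2 := 1 - b12)
        hc (by rw [hB3, hB2, eβ3, e23]; module) (by rw [hB2, e23]; module)
        (by rw [hB1, e13]; module) m32 m2 E1
        (by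
          have k1 := mul_pos hβ1 (show (0:ℝ) < 1 + β2 by linarith)
          have k2 := mul_nonneg (show (0:ℝ) ≤ 1 - b12 by linarith) h21.le
          linarith)
        (by linarith) (by
          have k1 := mul_pos h31 h23
          have k2 := mul_pos h21 hβ3
          rw [e23] at k1; rw [eβ3] at k2
          linarith)
      rw [e23, e13, eβ3]
      linarith

/-- The edge `A3 B2`: options. -/
lemma edge1 {c₀ : ℝ} (hc : 0 < c₀) {A1 A2 A3 B1 B2 : E}
    {β1 b12 b13 β2 b21 b23 : ℝ}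
    (hB1 : B1 = -β1 • A1 + b12 • A2 + b13 • A3)
    (hB2 : B2 = b21 • A1 + -β2 • A2 + b23 • A3)
    (s1 : b12 + b13 = 1 + β1) (s2 : b21 + b23 = 1 + β2)
    (hβ2 : 0 < β2) (h12 : 0 < b12) (h13 : 0 < b13) (h21 : 0 < b21)
    (n12 : ‖A1 - A2‖ ≤ c₀) (n13 : ‖A1 - A3‖ ≤ c₀) (m1 : ‖A1 - B1‖ ≤ c₀) (m2 : ‖A2 - B2‖ ≤ c₀)
    (E1 : c₀ < 2 * ‖B2 - A3‖) :
    (1 < b23 ∧ b23 < 2 * β2) ∨
    (b23 ≤ 1 ∧ b12 * (1 - b23) ≤ b13 * β2 ∧ b13 < 2 * (b13 * β2 + (1 - b23) * (1 - b12))) ∨
    (b23 ≤ 1 ∧ b13 * β2 ≤ b12 * (1 - b23) ∧ b12 < 2 * (b12 * (1 - b23) + β2 * (1 - b13))) := by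
  have e23 : b23 = 1 + β2 - b21 := by linarith
  rcases le_or_gt b23 1 with h | h
  · right
    rcases sector (A1 := A1) (A2 := A2) (A3 := A3) (B1 := B1) (Z := B2 - A3) (β := β1)
      (b12 := b12) (b13 := b13) (u := β2) (v := 1 - b23) hc hB1 s1 h12 h13 hβ2.le (by linarith)
      (by rw [hB2, e23]; module) n12 n13 m1 E1 with ⟨h1, h2⟩ | ⟨h1, h2⟩
    · left; exact ⟨h, h1, h2⟩
    · right; exact ⟨h, h1, h2⟩
  · left
    refine ⟨h, ?_⟩
    have E1' : c₀ < 2 * ‖A3 - B2‖ := by rw [norm_sub_rev]; exact E1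
    have n21 : ‖A2 - A1‖ ≤ c₀ := by rw [norm_sub_rev]; exact n12
    have := cone (A1 := A1) (A2 := A2) (A3 := A3) (U := A2 - B2) (V := A2 - A1) (Z := A3 - B2)
      (u1 := -b21) (u2 := 1 + β2) (v1 := -1) (v2 := 1) (z1 := -b21) (z2 := β2) hc
      (by rw [hB2, e23]; module) (by module) (by rw [hB2, e23]; module) m2 n21 E1'
      (by linarith) (by linarith) (by linarith)
    linarith

/-- Conversion of the options of `edge1` to ratios. -/
lemma conv1 {β1 b12 b13 β2 b21 b23 p q r s : ℝ}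
    (s1 : b12 + b13 = 1 + β1) (s2 : b21 + b23 = 1 + β2)
    (hβ1 : 0 < β1) (h12 : 0 < b12) (h13 : 0 < b13) (h21 : 0 < b21)
    (hp0 : 0 < p) (hq0 : 0 < q)
    (hp : p * b13 = β1) (hq : q * b12 = β1) (hr : r * b23 = β2) (hs : s * b21 = β2)
    (hb21 : b21 * (r + s - r * s) = r) (hD : 0 < r + s - r * s)
    (hh : (1 < b23 ∧ b23 < 2 * β2) ∨
    (b23 ≤ 1 ∧ b12 * (1 - b23) ≤ b13 * β2 ∧ b13 < 2 * (b13 * β2 + (1 - b23) * (1 - b12))) ∨
    (b23 ≤ 1 ∧ b13 * β2 ≤ b12 * (1 - b23) ∧ b12 < 2 * (b12 * (1 - b23) + β2 * (1 - b13)))) :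
    (1 < s ∧ 1 / 2 < r) ∨
      (s ≤ 1 ∧ p * (1 - s) ≤ q * s ∧ s < r * (1 + s - 2 * p * (1 - s))) ∨
      (s ≤ 1 ∧ q * s ≤ p * (1 - s) ∧ s < r * (1 + s - 2 * q * s)) := by
  have e1 : 1 - b23 = b21 * (1 - s) := by
    have : b21 * (1 - s) = b21 - s * b21 := by ring
    rw [this, hs]; linarith
  have e2 : 1 - b12 = b13 * (1 - p) := by
    have : b13 * (1 - p) = b13 - p * b13 := by ring
    rw [this, hp]; linarith
  have e3 : 1 - b13 = b12 * (1 - q) := by
    have : b12 * (1 - q) = b12 - q * b12 := by ring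
    rw [this, hq]; linarith
  -- ratio relation `b12 q = b13 p`
  have e4 : q * b12 = p * b13 := by rw [hp, hq]
  rcases hh with ⟨h1, h2⟩ | ⟨h1, h2, h3⟩ | ⟨h1, h2, h3⟩
  · left
    have hb23 : 0 < b23 := by linarith
    constructor
    · have : b21 * (1 - s) < 0 := by rw [← e1]; linarith
      by_contra hneg
      push Not at hneg
      have := mul_nonneg h21.le (show (0:ℝ) ≤ 1 - s by linarith)
      linarith
    · have : b23 * 1 < b23 * (2 * r) := by
        have : b23 * (2 * r) = 2 * (r * b23) := by ring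
        rw [this, hr]; linarith
      have := lt_of_mul_lt_mul_left this hb23.le
      linarith
  · right; left
    have hs1 : s ≤ 1 := by
      by_contra hneg
      push Not at hneg
      have := mul_pos h21 (show (0:ℝ) < s - 1 by linarith)
      linarith
    refine ⟨hs1, ?_, ?_⟩
    · rw [e1, ← hs] at h2
      have h4 : b12 * (1 - s) ≤ b13 * s := by
        have : b21 * (b12 * (1 - s)) ≤ b21 * (b13 * s) := by linarith
        exact le_of_mul_le_mul_left this h21
      -- multiply by `p q`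
      have h5 : (q * b12) * (p * (1 - s)) ≤ (q * b12) * (q * s) := by
        have k := mul_le_mul_of_nonneg_left h4 (mul_pos hp0 hq0).le
        have k1 : p * q * (b13 * s) = (p * b13) * (q * s) := by ring
        rw [k1, ← e4] at k
        linarith
      exact le_of_mul_le_mul_left h5 (by rw [hq]; exact hβ1)
    · rw [e2, e1, ← hs] at h3
      have h4 : 1 < 2 * b21 * (1 - p * (1 - s)) := by
        have : b13 * 1 < b13 * (2 * b21 * (1 - p * (1 - s))) := by linarith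
        exact lt_of_mul_lt_mul_left this h13.le
      have h5 := mul_lt_mul_of_pos_right h4 hD
      have h6 : 2 * b21 * (1 - p * (1 - s)) * (r + s - r * s) =
        2 * (b21 * (r + s - r * s)) * (1 - p * (1 - s)) := by ring
      rw [h6, hb21] at h5
      linarith
  · right; right
    have hs1 : s ≤ 1 := by
      by_contra hneg
      push Not at hneg
      have := mul_pos h21 (show (0:ℝ) < s - 1 by linarith)
      linarith
    refine ⟨hs1, ?_, ?_⟩
    · rw [e1, ← hs] at h2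
      have h4 : b13 * s ≤ b12 * (1 - s) := by
        have : b21 * (b13 * s) ≤ b21 * (b12 * (1 - s)) := by linarith
        exact le_of_mul_le_mul_left this h21
      have h5 : (q * b12) * (q * s) ≤ (q * b12) * (p * (1 - s)) := by
        have k := mul_le_mul_of_nonneg_left h4 (mul_pos hp0 hq0).le
        have k1 : p * q * (b13 * s) = (p * b13) * (q * s) := by ring
        rw [k1, ← e4] at k
        linarith
      exact le_of_mul_le_mul_left h5 (by rw [hq]; exact hβ1)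
    · rw [e3, e1, ← hs] at h3
      have h4 : 1 < 2 * b21 * (1 - q * s) := by
        have : b12 * 1 < b12 * (2 * b21 * (1 - q * s)) := by linarith
        exact lt_of_mul_lt_mul_left this h12.le
      have h5 := mul_lt_mul_of_pos_right h4 hD
      have h6 : 2 * b21 * (1 - q * s) * (r + s - r * s) =
        2 * (b21 * (r + s - r * s)) * (1 - q * s) := by ring
      rw [h6, hb21] at h5
      linarith

/-- Conversion of the options of `edge3` to ratios. -/
lemma conv3 {β1 b12 b13 β2 b21 b23 β3 b31 b32 p q s t w : ℝ}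
    (s1 : b12 + b13 = 1 + β1) (s2 : b21 + b23 = 1 + β2) (s3 : b31 + b32 = 1 + β3)
    (h21 : 0 < b21) (h31 : 0 < b31) (h32 : 0 < b32)
    (hp : p * b13 = β1) (hs : s * b21 = β2)
    (ht : t * b32 = β3) (hw : w * b31 = β3)
    (hb13 : b13 * (p + q - p * q) = q) (hD : 0 < p + q - p * q)
    (hh : b32 < 2 * (β1 * b32 + (1 - b12) * (1 - b31)) ∨
    b31 * b23 + b21 * β3 < 2 * (b31 * b13 - β1 * β3) ∨
    b31 * β2 + b32 * b21 < 2 * (β1 * β2 + (1 - b12) * b21)) :
    p < q * (1 + p - 2 * t * (1 - p)) ∨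
      1 + b21 * (s + w - 1) < 2 * (b13 - w * β1) ∨
      1 + b31 * (s + w - 1) < 2 * (s * β1 + 1 - b12) := by
  have e2 : 1 - b12 = b13 * (1 - p) := by
    have : b13 * (1 - p) = b13 - p * b13 := by ring
    rw [this, hp]; linarith
  have e5 : 1 - b31 = b32 * (1 - t) := by
    have : b32 * (1 - t) = b32 - t * b32 := by ring
    rw [this, ht]; linarith
  rcases hh with h | h | h
  · left
    rw [e2, e5, ← hp] at h
    have h4 : 1 < 2 * b13 * (1 - t * (1 - p)) := by
      have : b32 * 1 < b32 * (2 * b13 * (1 - t * (1 - p))) := by linarith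
      exact lt_of_mul_lt_mul_left this h32.le
    have h5 := mul_lt_mul_of_pos_right h4 hD
    have h6 : 2 * b13 * (1 - t * (1 - p)) * (p + q - p * q) =
      2 * (b13 * (p + q - p * q)) * (1 - t * (1 - p)) := by ring
    rw [h6, hb13] at h5
    linarith
  · right; left
    have h4 : b31 * (1 + b21 * (s + w - 1)) < b31 * (2 * (b13 - w * β1)) := by
      have k1 : b31 * (1 + b21 * (s + w - 1)) = b31 + b31 * (s * b21) + b21 * (w * b31) - b31 * b21 := by
        ring
      have k2 : b31 * (2 * (b13 - w * β1)) = 2 * (b31 * b13 - β1 * (w * b31)) := by ring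
      rw [k1, k2, hs, hw]
      have k3 : b23 = 1 + β2 - b21 := by linarith
      rw [k3] at h
      linarith
    exact lt_of_mul_lt_mul_left h4 h31.le
  · right; right
    have h4 : b21 * (1 + b31 * (s + w - 1)) < b21 * (2 * (s * β1 + 1 - b12)) := by
      have k1 : b21 * (1 + b31 * (s + w - 1)) = b21 + b31 * (s * b21) + b21 * (w * b31) - b21 * b31 := by
        ring
      have k2 : b21 * (2 * (s * β1 + 1 - b12)) = 2 * (β1 * (s * b21) + (1 - b12) * b21) := by ring
      rw [k1, k2, hs, hw]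
      have k3 : b32 = 1 + β3 - b31 := by linarith
      rw [k3] at h
      linarith
    exact lt_of_mul_lt_mul_left h4 h21.le

lemma ratio {x y β f g : ℝ} (h1 : x + y = 1 + β) (h2 : f * y = β) (h3 : g * x = β) :
    x * (f + g - f * g) = f ∧ y * (f + g - f * g) = g ∧ β * (f + g - f * g) = f * g := by
  have hx : x = 1 + β - y := by linarith
  have hy : y = 1 + β - x := by linarith
  have k1 : x * (f + g - f * g) = f := by
    have : x * (f + g - f * g) = f * (1 + β) - f * y + (g * x) * (1 - f) := by rw [hy]; ring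
    rw [this, h2, h3]; ring
  refine ⟨k1, ?_, ?_⟩
  · have : y * (f + g - f * g) = g * (1 + β) - g * x + (f * y) * (1 - g) := by rw [hx]; ring
    rw [this, h2, h3]; ring
  · calc β * (f + g - f * g) = g * (x * (f + g - f * g)) := by rw [← h3]; ring
      _ = f * g := by rw [k1]; ring

/-- The apex configuration is impossible. -/
theorem apex {c₀ : ℝ} (hc : 0 < c₀) {A1 A2 A3 B1 B2 B3 : E}
    {β1 b12 b13 β2 b21 b23 β3 b31 b32 : ℝ}
    (hB1 : B1 = -β1 • A1 + b12 • A2 + b13 • A3)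
    (hB2 : B2 = b21 • A1 + -β2 • A2 + b23 • A3)
    (hB3 : B3 = b31 • A1 + b32 • A2 + -β3 • A3)
    (s1 : b12 + b13 = 1 + β1) (s2 : b21 + b23 = 1 + β2) (s3 : b31 + b32 = 1 + β3)
    (hβ1 : 0 < β1) (hβ2 : 0 < β2) (hβ3 : 0 < β3)
    (h12 : 0 < b12) (h13 : 0 < b13) (h21 : 0 < b21) (h23 : 0 < b23) (h31 : 0 < b31) (h32 : 0 < b32)
    (t12 : β1 * b23 + β2 * b13 ≤ b13 * b23) (t13 : β1 * b32 + β3 * b12 ≤ b12 * b32)
    (t23 : b21 * b31 ≤ β2 * b31 + β3 * b21)
    (u12 : β1 * β2 ≤ b12 * b21) (u13 : β1 * β3 ≤ b13 * b31)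
    (n12 : ‖A1 - A2‖ ≤ c₀) (n13 : ‖A1 - A3‖ ≤ c₀)
    (m1 : ‖A1 - B1‖ ≤ c₀) (m2 : ‖A2 - B2‖ ≤ c₀) (m3 : ‖A3 - B3‖ ≤ c₀) (m23 : ‖B2 - B3‖ ≤ c₀)
    (E1 : c₀ < 2 * ‖A3 - B2‖) (E2 : c₀ < 2 * ‖A2 - B3‖)
    (E3 : c₀ < 2 * ‖A2 - B1‖) (E4 : c₀ < 2 * ‖A3 - B1‖) : False := by
  obtain ⟨p, hp⟩ : ∃ p : ℝ, p * b13 = β1 := ⟨β1 / b13, by field_simp⟩
  obtain ⟨q, hq⟩ : ∃ q : ℝ, q * b12 = β1 := ⟨β1 / b12, by field_simp⟩
  obtain ⟨r, hr⟩ : ∃ r : ℝ, r * b23 = β2 := ⟨β2 / b23, by field_simp⟩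
  obtain ⟨s, hs⟩ : ∃ s : ℝ, s * b21 = β2 := ⟨β2 / b21, by field_simp⟩
  obtain ⟨t, ht⟩ : ∃ t : ℝ, t * b32 = β3 := ⟨β3 / b32, by field_simp⟩
  obtain ⟨w, hw⟩ : ∃ w : ℝ, w * b31 = β3 := ⟨β3 / b31, by field_simp⟩
  have pp : 0 < p := (mul_pos_iff_of_pos_right h13).1 (by rw [hp]; exact hβ1)
  have pq : 0 < q := (mul_pos_iff_of_pos_right h12).1 (by rw [hq]; exact hβ1)
  have pr : 0 < r := (mul_pos_iff_of_pos_right h23).1 (by rw [hr]; exact hβ2)
  have ps : 0 < s := (mul_pos_iff_of_pos_right h21).1 (by rw [hs]; exact hβ2)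
  have pt : 0 < t := (mul_pos_iff_of_pos_right h32).1 (by rw [ht]; exact hβ3)
  have pw : 0 < w := (mul_pos_iff_of_pos_right h31).1 (by rw [hw]; exact hβ3)
  have hpr : p + r ≤ 1 := by
    have : (b13 * b23) * (p + r) ≤ (b13 * b23) * 1 := by
      have e : (b13 * b23) * (p + r) = (p * b13) * b23 + (r * b23) * b13 := by ring
      rw [e, hp, hr]; linarith
    exact le_of_mul_le_mul_left this (mul_pos h13 h23)
  have hqt : q + t ≤ 1 := by
    have : (b12 * b32) * (q + t) ≤ (b12 * b32) * 1 := by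
      have e : (b12 * b32) * (q + t) = (q * b12) * b32 + (t * b32) * b12 := by ring
      rw [e, hq, ht]; linarith
    exact le_of_mul_le_mul_left this (mul_pos h12 h32)
  have hsw : 1 ≤ s + w := by
    have : (b21 * b31) * 1 ≤ (b21 * b31) * (s + w) := by
      have e : (b21 * b31) * (s + w) = (s * b21) * b31 + (w * b31) * b21 := by ring
      rw [e, hs, hw]; linarith
    exact le_of_mul_le_mul_left this (mul_pos h21 h31)
  have hqs : q * s ≤ 1 := by
    have : (b12 * b21) * (q * s) ≤ (b12 * b21) * 1 := by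
      have e : (b12 * b21) * (q * s) = (q * b12) * (s * b21) := by ring
      rw [e, hq, hs]; linarith
    exact le_of_mul_le_mul_left this (mul_pos h12 h21)
  have hpw : p * w ≤ 1 := by
    have : (b13 * b31) * (p * w) ≤ (b13 * b31) * 1 := by
      have e : (b13 * b31) * (p * w) = (p * b13) * (w * b31) := by ring
      rw [e, hp, hw]; linarith
    exact le_of_mul_le_mul_left this (mul_pos h13 h31)
  obtain ⟨hb12, hb13, hβ⟩ := ratio s1 hp hq
  obtain ⟨hb21, _, _⟩ := ratio s2 hr hs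
  have s3' : b32 + b31 = 1 + β3 := by linarith
  obtain ⟨_, hb31, _⟩ := ratio s3' hw ht
  have hb31' : b31 * (t + w - t * w) = t := by
    have : w + t - w * t = t + w - t * w := by ring
    rw [this] at hb31; exact hb31
  have hp1 : p ≤ 1 := by linarith
  have hq1 : q ≤ 1 := by linarith
  have hr1 : r ≤ 1 := by linarith
  have ht1 : t ≤ 1 := by linarith
  have hD1 : 0 < p + q - p * q := by
    have := mul_nonneg pp.le (show (0:ℝ) ≤ 1 - q by linarith)
    linarith
  have hD2 : 0 < r + s - r * s := by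
    have := mul_nonneg ps.le (show (0:ℝ) ≤ 1 - r by linarith)
    linarith
  have hD3 : 0 < t + w - t * w := by
    have := mul_nonneg pw.le (show (0:ℝ) ≤ 1 - t by linarith)
    linarith
  have g12 : b12 ≤ 1 := by
    have e : 1 - b12 = b13 * (1 - p) := by
      have : b13 * (1 - p) = b13 - p * b13 := by ring
      rw [this, hp]; linarith
    have := mul_nonneg h13.le (show (0:ℝ) ≤ 1 - p by linarith)
    linarith
  have g13 : b13 ≤ 1 := by
    have e : 1 - b13 = b12 * (1 - q) := by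
      have : b12 * (1 - q) = b12 - q * b12 := by ring
      rw [this, hq]; linarith
    have := mul_nonneg h12.le (show (0:ℝ) ≤ 1 - q by linarith)
    linarith
  have E1' : c₀ < 2 * ‖B2 - A3‖ := by rw [norm_sub_rev]; exact E1
  have E2' : c₀ < 2 * ‖B3 - A2‖ := by rw [norm_sub_rev]; exact E2
  have m3' : ‖B3 - A3‖ ≤ c₀ := by rw [norm_sub_rev]; exact m3
  have m2' : ‖B2 - A2‖ ≤ c₀ := by rw [norm_sub_rev]; exact m2
  have m32 : ‖B3 - B2‖ ≤ c₀ := by rw [norm_sub_rev]; exact m23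
  have G1 := conv1 s1 s2 hβ1 h12 h13 h21 pp pq hp hq hr hs hb21 hD2
    (edge1 hc hB1 hB2 s1 s2 hβ2 h12 h13 h21 n12 n13 m1 m2 E1')
  have G2 := conv1 (β1 := β1) (b12 := b13) (b13 := b12) (β2 := β3) (b21 := b31) (b23 := b32)
    (p := q) (q := p) (r := t) (s := w) (by linarith) s3 hβ1 h13 h12 h31 pq pp hq hp ht hw hb31' hD3
    (edge1 (A1 := A1) (A2 := A3) (A3 := A2) (B1 := B1) (B2 := B3) (β1 := β1) (b12 := b13)
      (b13 := b12) (β2 := β3) (b21 := b31) (b23 := b32) hc (by rw [hB1]; module)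
      (by rw [hB3]; module) (by linarith) s3 hβ3 h13 h12 h31 n13 n12 m1 m3 E2')
  have G3 := conv3 s1 s2 s3 h21 h31 h32 hp hs ht hw hb13 hD1
    (edge3 hc hB1 hB2 hB3 s1 s2 s3 hβ1 hβ2 hβ3 h21 h23 h31 h32 g12 n13 m2 m3' m32 E3)
  have G4 := conv3 (β1 := β1) (b12 := b13) (b13 := b12) (β2 := β3) (b21 := b31) (b23 := b32)
    (β3 := β2) (b31 := b21) (b32 := b23) (p := q) (q := p) (s := w) (t := r) (w := s)
    (by linarith) s3 s2 h31 h21 h23 hq hw hr hs
    (by
      have : q + p - q * p = p + q - p * q := by ring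
      rw [this]; exact hb12)
    (by linarith)
    (edge3 (A1 := A1) (A2 := A3) (A3 := A2) (B1 := B1) (B2 := B3) (B3 := B2) (β1 := β1)
      (b12 := b13) (b13 := b12) (β2 := β3) (b21 := b31) (b23 := b32) (β3 := β2) (b31 := b21)
      (b32 := b23) hc (by rw [hB1]; module) (by rw [hB3]; module) (by rw [hB2]; module)
      (by linarith) s3 s2 hβ1 hβ3 hβ2 h31 h32 h21 h23 g13 n12 m3 m2' m23 E4)
  refine apex_alg pp pq pr ps pt pw hpr hqt hsw hqs hpw hβ1 hβ hb12 hb13 s1 h21 h31 hb21 hb31' G1 G2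
    G3 ?_
  rcases G4 with h | h | h
  · left; exact h
  · right; left; linarith
  · right; right; linarith

end Pool.Agent.MinkSeven
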