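import Pool.Agent.MinkSeven.Vec

/-!
# Seven points in a normed plane (MP_08f092_co): the two configurations
-/

set_option autoImplicit false

namespace Pool.Agent.MinkSeven

variable {E : Type*} [NormedAddCommGroup E] [NormedSpace ℝ E]

/-- Two points cannot lie beyond the same side. -/
lemma outer_unique_aux {c : ℝ} (hc : 0 < c) {A1 A2 A3 P Q : E} {β y2 y3 γ z2 z3 : ℝ}
    (hs : y2 + y3 = 1 + β) (ht : z2 + z3 = 1 + γ)
    (hP : P = -β • A1 + y2 • A2 + y3 • A3) (hQ : Q = -γ • A1 + z2 • A2 + z3 • A3)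
    (hβ : 0 < β) (hγ : 0 < γ) (hy2 : y2 ≤ 1) (hy3 : y3 ≤ 1) (hz2 : z2 ≤ 1) (hz3 : z3 ≤ 1)
    (n12 : ‖A1 - A2‖ ≤ c) (n13 : ‖A1 - A3‖ ≤ c) (n23 : ‖A2 - A3‖ ≤ c)
    (nP2 : c < 2 * ‖A2 - P‖) (nP3 : c < 2 * ‖A3 - P‖)
    (nQ2 : c < 2 * ‖A2 - Q‖) (nQ3 : c < 2 * ‖A3 - Q‖) (nP1 : ‖A1 - P‖ ≤ c)
    (nPQ : c < 2 * ‖Q - P‖) (hbg : γ ≤ β) : False := by
  have n32 : ‖A3 - A2‖ ≤ c := by rw [norm_sub_rev]; exact n23
  have a1 : 1 / 2 < y3 := outer_gt hc hs hP hβ.le hy2 n13 n23 nP2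
  have a2 : 1 / 2 < y2 := outer_gt (A1 := A1) (A2 := A3) (A3 := A2) (x := y3) (y := y2) hc
    (by linarith) (by rw [hP]; module) hβ.le hy3 n12 n32 nP3
  have a3 : 1 / 2 < z3 := outer_gt hc ht hQ hγ.le hz2 n13 n23 nQ2
  have a4 : 1 / 2 < z2 := outer_gt (A1 := A1) (A2 := A3) (A3 := A2) (x := z3) (y := z2) hc
    (by linarith) (by rw [hQ]; module) hγ.le hz3 n12 n32 nQ3
  rcases le_or_gt (β - γ) (1 / 2) with h | h
  · exact hex (A1 := A1) (A2 := A2) (A3 := A3) (Z := Q - P) (x := β - γ) (y := z2 - y2)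
      (z := z3 - y3) hc (by linarith) (by rw [hP, hQ]; module) n12 n13 n23 nPQ
      (abs_le.2 ⟨by linarith, h⟩) (abs_le.2 ⟨by linarith, by linarith⟩)
      (abs_le.2 ⟨by linarith, by linarith⟩)
  · have hu : 0 ≤ y2 - z2 := by linarith
    have hv : 0 ≤ y3 - z3 := by linarith
    have e1 : β - γ = (y2 - z2) + (y3 - z3) := by linarith
    rcases sector (A1 := A1) (A2 := A2) (A3 := A3) (B1 := P) (Z := Q - P) (β := β) (b12 := y2)
      (b13 := y3) (u := y2 - z2) (v := y3 - z3) hc hP hs (by linarith) (by linarith) hu hv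
      (by rw [← e1, hP, hQ]; module) n12 n13 nP1 nPQ with ⟨_, h2⟩ | ⟨_, h2⟩
    · nlinarith
    · nlinarith

lemma outer_unique {c : ℝ} (hc : 0 < c) {A1 A2 A3 P Q : E} {β y2 y3 γ z2 z3 : ℝ}
    (hs : y2 + y3 = 1 + β) (ht : z2 + z3 = 1 + γ)
    (hP : P = -β • A1 + y2 • A2 + y3 • A3) (hQ : Q = -γ • A1 + z2 • A2 + z3 • A3)
    (hβ : 0 < β) (hγ : 0 < γ) (hy2 : y2 ≤ 1) (hy3 : y3 ≤ 1) (hz2 : z2 ≤ 1) (hz3 : z3 ≤ 1)
    (n12 : ‖A1 - A2‖ ≤ c) (n13 : ‖A1 - A3‖ ≤ c) (n23 : ‖A2 - A3‖ ≤ c)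
    (nP2 : c < 2 * ‖A2 - P‖) (nP3 : c < 2 * ‖A3 - P‖)
    (nQ2 : c < 2 * ‖A2 - Q‖) (nQ3 : c < 2 * ‖A3 - Q‖) (nP1 : ‖A1 - P‖ ≤ c) (nQ1 : ‖A1 - Q‖ ≤ c)
    (nPQ : c < 2 * ‖Q - P‖) : False := by
  rcases le_total γ β with h | h
  · exact outer_unique_aux hc hs ht hP hQ hβ hγ hy2 hy3 hz2 hz3 n12 n13 n23 nP2 nP3 nQ2 nQ3 nP1
      nPQ h
  · exact outer_unique_aux hc ht hs hQ hP hγ hβ hz2 hz3 hy2 hy3 n12 n13 n23 nQ2 nQ3 nP2 nP3 nQ1
      (by rw [norm_sub_rev]; exact nPQ) h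

/-- Two points cannot lie in the closed triangle. -/
lemma inside_unique {c : ℝ} (hc : 0 < c) {A1 A2 A3 P Q : E} {x1 x2 x3 y1 y2 y3 : ℝ}
    (hs : x1 + x2 + x3 = 1) (ht : y1 + y2 + y3 = 1)
    (hP : P = x1 • A1 + x2 • A2 + x3 • A3) (hQ : Q = y1 • A1 + y2 • A2 + y3 • A3)
    (hx1 : 0 ≤ x1) (hx2 : 0 ≤ x2) (hx3 : 0 ≤ x3) (hy1 : 0 ≤ y1) (hy2 : 0 ≤ y2) (hy3 : 0 ≤ y3)
    (n12 : ‖A1 - A2‖ ≤ c) (n13 : ‖A1 - A3‖ ≤ c) (n23 : ‖A2 - A3‖ ≤ c)
    (nP1 : c < 2 * ‖A1 - P‖) (nP2 : c < 2 * ‖A2 - P‖) (nP3 : c < 2 * ‖A3 - P‖)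
    (nQ1 : c < 2 * ‖A1 - Q‖) (nQ2 : c < 2 * ‖A2 - Q‖) (nQ3 : c < 2 * ‖A3 - Q‖)
    (nPQ : c < 2 * ‖P - Q‖) : False := by
  have n21 : ‖A2 - A1‖ ≤ c := by rw [norm_sub_rev]; exact n12
  have n31 : ‖A3 - A1‖ ≤ c := by rw [norm_sub_rev]; exact n13
  have n32 : ‖A3 - A2‖ ≤ c := by rw [norm_sub_rev]; exact n23
  have a1 : x1 < 1 / 2 := inside_lt hc hs hP hx2 hx3 n12 n13 nP1
  have a2 : x2 < 1 / 2 := inside_lt (A1 := A2) (A2 := A1) (A3 := A3) (x := x2) (y := x1) (z := x3)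
    hc (by linarith) (by rw [hP]; module) hx1 hx3 n21 n23 nP2
  have a3 : x3 < 1 / 2 := inside_lt (A1 := A3) (A2 := A1) (A3 := A2) (x := x3) (y := x1) (z := x2)
    hc (by linarith) (by rw [hP]; module) hx1 hx2 n31 n32 nP3
  have b1 : y1 < 1 / 2 := inside_lt hc ht hQ hy2 hy3 n12 n13 nQ1
  have b2 : y2 < 1 / 2 := inside_lt (A1 := A2) (A2 := A1) (A3 := A3) (x := y2) (y := y1) (z := y3)
    hc (by linarith) (by rw [hQ]; module) hy1 hy3 n21 n23 nQ2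
  have b3 : y3 < 1 / 2 := inside_lt (A1 := A3) (A2 := A1) (A3 := A2) (x := y3) (y := y1) (z := y2)
    hc (by linarith) (by rw [hQ]; module) hy1 hy2 n31 n32 nQ3
  exact hex (A1 := A1) (A2 := A2) (A3 := A3) (Z := P - Q) (x := x1 - y1) (y := x2 - y2)
    (z := x3 - y3) hc (by linarith) (by rw [hP, hQ]; module) n12 n13 n23 nPQ
    (abs_le.2 ⟨by linarith, by linarith⟩) (abs_le.2 ⟨by linarith, by linarith⟩)
    (abs_le.2 ⟨by linarith, by linarith⟩)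

/-! ## The cyclic configuration -/

/-- Edge estimate in the form of `cyc_alg`: the edge `A2 B1` seen in the sector of `A3`, where
`a = β1 / b13`, `c' = β1 / b12`, `c = β3 / b32`, `b' = β3 / b31`. -/
lemma edge_cyc {c₀ : ℝ} (hc : 0 < c₀) {A1 A2 A3 B1 B3 : E} {β1 b12 b13 β3 b31 b32 a c' c b' : ℝ}
    (hB1 : B1 = -β1 • A1 + b12 • A2 + b13 • A3) (hs1 : b12 + b13 = 1 + β1)
    (hB3 : B3 = b31 • A1 + b32 • A2 + -β3 • A3) (hs3 : b31 + b32 = 1 + β3)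
    (hβ1 : 0 < β1) (h12 : 0 < b12) (h13 : 0 < b13) (h12' : b12 ≤ 1)
    (h31 : 0 < b31) (h32 : 0 < b32)
    (ha : a * b13 = β1) (hc' : c' * b12 = β1) (hcc : c * b32 = β3) (hb' : b' * b31 = β3)
    (n31 : ‖A3 - A1‖ ≤ c₀) (n32 : ‖A3 - A2‖ ≤ c₀) (nB3 : ‖A3 - B3‖ ≤ c₀)
    (nE : c₀ < 2 * ‖B1 - A2‖) :
    a < c' * (1 + a - 2 * c * (1 - a)) ∨ a < c' * (1 + a - 2 * a * b') := by
  have hc'0 : 0 < c' := by
    by_contra hneg
    push Not at hneg
    nlinarith [mul_nonneg (neg_nonneg.2 hneg) h12.le]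
  have key : b13 * (a + c' - a * c') = c' := by
    have e1 : b12 = 1 + β1 - b13 := by linarith
    have : b13 * (a + c' - a * c') - c' = (a * b13 - β1) * (1 - c') - (c' * b12 - β1) := by
      rw [e1]; ring
    rw [ha, hc'] at this
    linarith
  rcases sector (A1 := A3) (A2 := A1) (A3 := A2) (B1 := B3) (Z := B1 - A2) (β := β3) (b12 := b31)
      (b13 := b32) (u := β1) (v := 1 - b12) hc (by rw [hB3]; module) hs3 h31 h32 hβ1.le
      (by linarith) (by rw [hB1, show b13 = 1 + β1 - b12 by linarith]; module) n31 n32 nB3 nE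
    with ⟨_, h2⟩ | ⟨_, h2⟩
  · left
    -- `1/2 < β1 + (1 - b12)(1 - c)`
    have e1 : b32 * 1 < b32 * (2 * (β1 + (1 - b12) * (1 - c))) := by
      have : b32 * (2 * (β1 + (1 - b12) * (1 - c))) =
        2 * (b32 * β1 + (1 - b12) * (b32 - c * b32)) := by ring
      rw [this, hcc]
      have : b32 - β3 = 1 - b31 := by linarith
      rw [this]; linarith
    have e2 : 1 < 2 * (β1 + (1 - b12) * (1 - c)) := lt_of_mul_lt_mul_left e1 h32.le
    -- `β1 = a b13`, `1 - b12 = b13 (1-a)`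
    have e3 : 1 - b12 = b13 * (1 - a) := by rw [mul_sub, mul_comm b13 a, ha]; linarith
    have e4 : 1 < 2 * b13 * (1 - c * (1 - a)) := by
      have : 2 * (β1 + (1 - b12) * (1 - c)) = 2 * b13 * (1 - c * (1 - a)) := by
        rw [e3, ← ha]; ring
      linarith
    have e5 : a + c' - a * c' < 2 * c' * (1 - c * (1 - a)) := by
      have hD : 0 < a + c' - a * c' := by
        by_contra hneg
        push Not at hneg
        nlinarith [mul_nonneg h13.le (neg_nonneg.2 hneg)]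
      have := mul_lt_mul_of_pos_right e4 hD
      have e6 : 2 * b13 * (1 - c * (1 - a)) * (a + c' - a * c') =
        2 * (b13 * (a + c' - a * c')) * (1 - c * (1 - a)) := by ring
      rw [e6, key] at this
      linarith
    linarith
  · right
    have e1 : b31 * 1 < b31 * (2 * (1 - b12 + β1 * (1 - b'))) := by
      have : b31 * (2 * (1 - b12 + β1 * (1 - b'))) =
        2 * (b31 * (1 - b12) + β1 * (b31 - b' * b31)) := by ring
      rw [this, hb']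
      have : b31 - β3 = 1 - b32 := by linarith
      rw [this]; linarith
    have e2 : 1 < 2 * (1 - b12 + β1 * (1 - b')) := lt_of_mul_lt_mul_left e1 h31.le
    have e3 : 1 - b12 = b13 * (1 - a) := by rw [mul_sub, mul_comm b13 a, ha]; linarith
    have e4 : 1 < 2 * b13 * (1 - a * b') := by
      have : 2 * (1 - b12 + β1 * (1 - b')) = 2 * b13 * (1 - a * b') := by
        rw [e3, ← ha]; ring
      linarith
    have e5 : a + c' - a * c' < 2 * c' * (1 - a * b') := by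
      have hD : 0 < a + c' - a * c' := by
        by_contra hneg
        push Not at hneg
        nlinarith [mul_nonneg h13.le (neg_nonneg.2 hneg)]
      have := mul_lt_mul_of_pos_right e4 hD
      have e6 : 2 * b13 * (1 - a * b') * (a + c' - a * c') =
        2 * (b13 * (a + c' - a * c')) * (1 - a * b') := by ring
      rw [e6, key] at this
      linarith
    linarith

end Pool.Agent.MinkSeven
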