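import Pool.Agent.MinkSeven.Conf

/-!
# Seven points in a normed plane (MP_08f092_co): the configuration with three antipodal pairs
-/

set_option autoImplicit false

namespace Pool.Agent.MinkSeven

variable {E : Type*} [NormedAddCommGroup E] [NormedSpace ℝ E]

/-- What the distances from `X` to `A1` and `B1` say. -/
lemma xsplit {c : ℝ} (hc : 0 < c) {A1 A2 A3 B1 X : E} {β1 b12 b13 x1 x2 x3 : ℝ}
    (hB1 : B1 = -β1 • A1 + b12 • A2 + b13 • A3) (hs1 : b12 + b13 = 1 + β1)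
    (h12 : 0 < b12) (h13 : 0 < b13)
    (hX : X = x1 • A1 + x2 • A2 + x3 • A3) (hx : x1 + x2 + x3 = 1)
    (hx2 : 0 ≤ x2) (hx3 : 0 ≤ x3) (h2 : x2 ≤ b12) (h3 : x3 ≤ b13)
    (n12 : ‖A1 - A2‖ ≤ c) (n13 : ‖A1 - A3‖ ≤ c) (nB : ‖A1 - B1‖ ≤ c)
    (nXA : c < 2 * ‖A1 - X‖) (nXB : c < 2 * ‖X - B1‖) :
    (2 * (b13 * x1 + β1 * x3) < b13 ∨ 2 * (b12 * x1 + β1 * x2) < b12) ∧
    (b13 < 2 * (b13 * x1 + β1 * x3) ∨ b12 < 2 * (b12 * x1 + β1 * x2)) := by
  have e1 : x1 = 1 - x2 - x3 := by linarith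
  have e2 : β1 = b12 + b13 - 1 := by linarith
  constructor
  · rcases sector (A1 := A1) (A2 := A2) (A3 := A3) (B1 := B1) (Z := A1 - X) (β := β1) (b12 := b12)
      (b13 := b13) (u := x2) (v := x3) hc hB1 hs1 h12 h13 hx2 hx3
      (by rw [hX, e1]; module) n12 n13 nB nXA with ⟨_, h⟩ | ⟨_, h⟩
    · left; rw [e1, e2]; nlinarith
    · right; rw [e1, e2]; nlinarith
  · rcases sector (A1 := A1) (A2 := A2) (A3 := A3) (B1 := B1) (Z := X - B1) (β := β1) (b12 := b12)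
      (b13 := b13) (u := b12 - x2) (v := b13 - x3) hc hB1 hs1 h12 h13 (by linarith) (by linarith)
      (by rw [hX, hB1, e1, e2]; module) n12 n13 nB nXB with ⟨_, h⟩ | ⟨_, h⟩
    · left; rw [e1, e2]; nlinarith
    · right; rw [e1, e2]; nlinarith

/-- The cyclic pattern is impossible. -/
lemma cyc_conf {c₀ : ℝ} (hc : 0 < c₀) {A1 A2 A3 B1 B2 B3 : E}
    {β1 b12 b13 β2 b21 b23 β3 b31 b32 x1 x2 x3 : ℝ}
    (hB1 : B1 = -β1 • A1 + b12 • A2 + b13 • A3)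
    (hB2 : B2 = b21 • A1 + -β2 • A2 + b23 • A3)
    (hB3 : B3 = b31 • A1 + b32 • A2 + -β3 • A3)
    (s1 : b12 + b13 = 1 + β1) (s2 : b21 + b23 = 1 + β2) (s3 : b31 + b32 = 1 + β3)
    (hβ1 : 0 < β1) (hβ2 : 0 < β2) (hβ3 : 0 < β3)
    (h12 : 0 < b12) (h13 : 0 < b13) (h21 : 0 < b21) (h23 : 0 < b23) (h31 : 0 < b31) (h32 : 0 < b32)
    (g12 : b12 ≤ 1) (g23 : b23 ≤ 1) (g31 : b31 ≤ 1)
    (t12 : β1 * b23 + β2 * b13 ≤ b13 * b23) (t13 : β1 * b32 + β3 * b12 ≤ b12 * b32)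
    (t23 : β2 * b31 + β3 * b21 ≤ b21 * b31)
    (hx : x1 + x2 + x3 = 1) (hx1 : x1 < 1 / 2) (hx2 : x2 < 1 / 2) (hx3 : x3 < 1 / 2)
    (Q21 : b13 < 2 * (b13 * x1 + β1 * x3)) (Q32 : b21 < 2 * (b21 * x2 + β2 * x1))
    (Q13 : b32 < 2 * (b32 * x3 + β3 * x2))
    (n12 : ‖A1 - A2‖ ≤ c₀) (n13 : ‖A1 - A3‖ ≤ c₀) (n23 : ‖A2 - A3‖ ≤ c₀)
    (m1 : ‖A1 - B1‖ ≤ c₀) (m2 : ‖A2 - B2‖ ≤ c₀) (m3 : ‖A3 - B3‖ ≤ c₀)
    (E1 : c₀ < 2 * ‖B1 - A2‖) (E2 : c₀ < 2 * ‖B2 - A3‖) (E3 : c₀ < 2 * ‖B3 - A1‖) : False := by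
  have n21 : ‖A2 - A1‖ ≤ c₀ := by rw [norm_sub_rev]; exact n12
  have n31 : ‖A3 - A1‖ ≤ c₀ := by rw [norm_sub_rev]; exact n13
  have n32 : ‖A3 - A2‖ ≤ c₀ := by rw [norm_sub_rev]; exact n23
  obtain ⟨a, ha⟩ : ∃ a : ℝ, a * b13 = β1 := ⟨β1 / b13, by field_simp⟩
  obtain ⟨a', ha'⟩ : ∃ a' : ℝ, a' * b23 = β2 := ⟨β2 / b23, by field_simp⟩
  obtain ⟨b, hb⟩ : ∃ b : ℝ, b * b21 = β2 := ⟨β2 / b21, by field_simp⟩
  obtain ⟨b', hb'⟩ : ∃ b' : ℝ, b' * b31 = β3 := ⟨β3 / b31, by field_simp⟩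
  obtain ⟨c, hcc⟩ : ∃ c : ℝ, c * b32 = β3 := ⟨β3 / b32, by field_simp⟩
  obtain ⟨c', hc'⟩ : ∃ c' : ℝ, c' * b12 = β1 := ⟨β1 / b12, by field_simp⟩
  have pa : 0 < a := (mul_pos_iff_of_pos_right h13).1 (by rw [ha]; exact hβ1)
  have pa' : 0 < a' := (mul_pos_iff_of_pos_right h23).1 (by rw [ha']; exact hβ2)
  have pb : 0 < b := (mul_pos_iff_of_pos_right h21).1 (by rw [hb]; exact hβ2)
  have pb' : 0 < b' := (mul_pos_iff_of_pos_right h31).1 (by rw [hb']; exact hβ3)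
  have pc : 0 < c := (mul_pos_iff_of_pos_right h32).1 (by rw [hcc]; exact hβ3)
  have pc' : 0 < c' := (mul_pos_iff_of_pos_right h12).1 (by rw [hc']; exact hβ1)
  have saa : a + a' ≤ 1 := by
    have : (b13 * b23) * (a + a') ≤ (b13 * b23) * 1 := by
      have e : (b13 * b23) * (a + a') = (a * b13) * b23 + (a' * b23) * b13 := by ring
      rw [e, ha, ha']; linarith
    exact le_of_mul_le_mul_left this (mul_pos h13 h23)
  have sbb : b + b' ≤ 1 := by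
    have : (b21 * b31) * (b + b') ≤ (b21 * b31) * 1 := by
      have e : (b21 * b31) * (b + b') = (b * b21) * b31 + (b' * b31) * b21 := by ring
      rw [e, hb, hb']; linarith
    exact le_of_mul_le_mul_left this (mul_pos h21 h31)
  have scc : c + c' ≤ 1 := by
    have : (b12 * b32) * (c + c') ≤ (b12 * b32) * 1 := by
      have e : (b12 * b32) * (c + c') = (c * b32) * b12 + (c' * b12) * b32 := by ring
      rw [e, hcc, hc']; linarith
    exact le_of_mul_le_mul_left this (mul_pos h12 h32)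
  -- the inequality (I)
  have q1 : 1 / 2 - x1 < a * x3 := by
    have : b13 * (1 / 2 - x1) < b13 * (a * x3) := by
      have e : b13 * (a * x3) = (a * b13) * x3 := by ring
      rw [e, ha]; linarith
    exact lt_of_mul_lt_mul_left this h13.le
  have q2 : 1 / 2 - x2 < b * x1 := by
    have : b21 * (1 / 2 - x2) < b21 * (b * x1) := by
      have e : b21 * (b * x1) = (b * b21) * x1 := by ring
      rw [e, hb]; linarith
    exact lt_of_mul_lt_mul_left this h21.le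
  have q3 : 1 / 2 - x3 < c * x2 := by
    have : b32 * (1 / 2 - x3) < b32 * (c * x2) := by
      have e : b32 * (c * x2) = (c * b32) * x2 := by ring
      rw [e, hcc]; linarith
    exact lt_of_mul_lt_mul_left this h32.le
  have r1 : (1 - a) * (1 / 2 - x1) < a * (1 / 2 - x2) := by
    have e : a * x3 = a * (1 / 2 - x1) + a * (1 / 2 - x2) := by
      have : x3 = 1 - x1 - x2 := by linarith
      rw [this]; ring
    linarith
  have r2 : (1 - b) * (1 / 2 - x2) < b * (1 / 2 - x3) := by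
    have e : b * x1 = b * (1 / 2 - x2) + b * (1 / 2 - x3) := by
      have : x1 = 1 - x2 - x3 := by linarith
      rw [this]; ring
    linarith
  have r3 : (1 - c) * (1 / 2 - x3) < c * (1 / 2 - x1) := by
    have e : c * x2 = c * (1 / 2 - x3) + c * (1 / 2 - x1) := by
      have : x2 = 1 - x1 - x3 := by linarith
      rw [this]; ring
    linarith
  have hI : (1 - a) * (1 - b) * (1 - c) < a * b * c := by
    have y1 : 0 < 1 / 2 - x1 := by linarith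
    have y2 : 0 < 1 / 2 - x2 := by linarith
    have y3 : 0 < 1 / 2 - x3 := by linarith
    have m12 := mul_lt_mul'' r1 r2 (mul_nonneg (by linarith) y1.le) (mul_nonneg (by linarith) y2.le)
    have m123 := mul_lt_mul'' m12 r3
      (mul_nonneg (mul_nonneg (by linarith) y1.le) (mul_nonneg (by linarith) y2.le))
      (mul_nonneg (by linarith) y3.le)
    have e : ((1 / 2 - x1) * (1 / 2 - x2) * (1 / 2 - x3)) * ((1 - a) * (1 - b) * (1 - c)) <
        ((1 / 2 - x1) * (1 / 2 - x2) * (1 / 2 - x3)) * (a * b * c) := by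
      have e1 : (1 - a) * (1 / 2 - x1) * ((1 - b) * (1 / 2 - x2)) * ((1 - c) * (1 / 2 - x3)) =
        ((1 / 2 - x1) * (1 / 2 - x2) * (1 / 2 - x3)) * ((1 - a) * (1 - b) * (1 - c)) := by ring
      have e2 : a * (1 / 2 - x2) * (b * (1 / 2 - x3)) * (c * (1 / 2 - x1)) =
        ((1 / 2 - x1) * (1 / 2 - x2) * (1 / 2 - x3)) * (a * b * c) := by ring
      rw [e1, e2] at m123
      exact m123
    exact lt_of_mul_lt_mul_left e (mul_pos (mul_pos y1 y2) y3).le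
  have K1 := edge_cyc (A1 := A1) (A2 := A2) (A3 := A3) (B1 := B1) (B3 := B3) hc hB1 s1 hB3 s3 hβ1
    h12 h13 g12 h31 h32 ha hc' hcc hb' n31 n32 m3 E1
  have K2 := edge_cyc (A1 := A2) (A2 := A3) (A3 := A1) (B1 := B2) (B3 := B1) (β1 := β2)
    (b12 := b23) (b13 := b21) (β3 := β1) (b31 := b12) (b32 := b13) (a := b) (c' := a') (c := a)
    (b' := c') hc (by rw [hB2]; module) (by linarith) (by rw [hB1]; module) (by linarith) hβ2
    h23 h21 g23 h12 h13 hb ha' ha hc' n12 n13 m1 E2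
  have K3 := edge_cyc (A1 := A3) (A2 := A1) (A3 := A2) (B1 := B3) (B3 := B2) (β1 := β3)
    (b12 := b31) (b13 := b32) (β3 := β2) (b31 := b23) (b32 := b21) (a := c) (c' := b') (c := b)
    (b' := a') hc (by rw [hB3]; module) (by linarith) (by rw [hB2]; module) (by linarith) hβ3
    h31 h32 g31 h23 h21 hcc hb' hb ha' n23 n21 m2 E3
  exact cyc_alg pa pb pc pa' pb' pc' saa sbb scc hI K1 K2 K3

/-- Exclusion coming from an antipodal pair. -/
lemma excl {βi bik βj bjk xi xj xk : ℝ} (k1 : 0 < bik) (k2 : 0 < bjk) (k3 : 0 < xk)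
    (k4 : xi + xj + xk = 1) (k5 : βi * bjk + βj * bik ≤ bik * bjk)
    (k6 : bik < 2 * (bik * xi + βi * xk)) (k7 : bjk < 2 * (bjk * xj + βj * xk)) : False := by
  have e1 := mul_lt_mul_of_pos_right k6 k2
  have e2 := mul_lt_mul_of_pos_left k7 k1
  have e3 := mul_le_mul_of_nonneg_right k5 k3.le
  have e4 : xi = 1 - xj - xk := by linarith
  rw [e4] at e1
  linarith

/-- The whole configuration with three antipodal pairs is impossible. -/
theorem aaa {c₀ : ℝ} (hc : 0 < c₀) {A1 A2 A3 B1 B2 B3 X : E}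
    {β1 b12 b13 β2 b21 b23 β3 b31 b32 x1 x2 x3 : ℝ}
    (hB1 : B1 = -β1 • A1 + b12 • A2 + b13 • A3)
    (hB2 : B2 = b21 • A1 + -β2 • A2 + b23 • A3)
    (hB3 : B3 = b31 • A1 + b32 • A2 + -β3 • A3)
    (hX : X = x1 • A1 + x2 • A2 + x3 • A3)
    (s1 : b12 + b13 = 1 + β1) (s2 : b21 + b23 = 1 + β2) (s3 : b31 + b32 = 1 + β3)
    (hβ1 : 0 < β1) (hβ2 : 0 < β2) (hβ3 : 0 < β3)
    (h12 : 1 / 2 < b12) (h13 : 1 / 2 < b13) (h21 : 1 / 2 < b21) (h23 : 1 / 2 < b23)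
    (h31 : 1 / 2 < b31) (h32 : 1 / 2 < b32)
    (g12 : b12 ≤ 1) (g13 : b13 ≤ 1) (g21 : b21 ≤ 1) (g23 : b23 ≤ 1) (g31 : b31 ≤ 1) (g32 : b32 ≤ 1)
    (t12 : β1 * b23 + β2 * b13 ≤ b13 * b23) (t13 : β1 * b32 + β3 * b12 ≤ b12 * b32)
    (t23 : β2 * b31 + β3 * b21 ≤ b21 * b31)
    (hx : x1 + x2 + x3 = 1) (hx1 : x1 < 1 / 2) (hx2 : x2 < 1 / 2) (hx3 : x3 < 1 / 2)
    (n12 : ‖A1 - A2‖ ≤ c₀) (n13 : ‖A1 - A3‖ ≤ c₀) (n23 : ‖A2 - A3‖ ≤ c₀)
    (m1 : ‖A1 - B1‖ ≤ c₀) (m2 : ‖A2 - B2‖ ≤ c₀) (m3 : ‖A3 - B3‖ ≤ c₀)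
    (XA1 : c₀ < 2 * ‖A1 - X‖) (XA2 : c₀ < 2 * ‖A2 - X‖) (XA3 : c₀ < 2 * ‖A3 - X‖)
    (XB1 : c₀ < 2 * ‖X - B1‖) (XB2 : c₀ < 2 * ‖X - B2‖) (XB3 : c₀ < 2 * ‖X - B3‖)
    (E12 : c₀ < 2 * ‖B1 - A2‖) (E13 : c₀ < 2 * ‖B1 - A3‖) (E21 : c₀ < 2 * ‖B2 - A1‖)
    (E23 : c₀ < 2 * ‖B2 - A3‖) (E31 : c₀ < 2 * ‖B3 - A1‖) (E32 : c₀ < 2 * ‖B3 - A2‖) : False := by
  have n21 : ‖A2 - A1‖ ≤ c₀ := by rw [norm_sub_rev]; exact n12
  have n31 : ‖A3 - A1‖ ≤ c₀ := by rw [norm_sub_rev]; exact n13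
  have n32 : ‖A3 - A2‖ ≤ c₀ := by rw [norm_sub_rev]; exact n23
  have y1 : 0 < x1 := by linarith
  have y2 : 0 < x2 := by linarith
  have y3 : 0 < x3 := by linarith
  -- splitting at the three vertices
  obtain ⟨P1, R1⟩ := xsplit (A1 := A1) (A2 := A2) (A3 := A3) (B1 := B1) (X := X) hc hB1 s1
    (by linarith) (by linarith) hX hx y2.le y3.le (by linarith) (by linarith) n12 n13 m1 XA1 XB1
  -- vertex 2: (A2; A3, A1)
  obtain ⟨P2, R2⟩ := xsplit (A1 := A2) (A2 := A3) (A3 := A1) (B1 := B2) (X := X) (β1 := β2)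
    (b12 := b23) (b13 := b21) (x1 := x2) (x2 := x3) (x3 := x1) hc (by rw [hB2]; module)
    (by linarith) (by linarith) (by linarith) (by rw [hX]; module) (by linarith) y3.le y1.le
    (by linarith) (by linarith) n23 n21 m2 XA2 XB2
  -- vertex 3: (A3; A1, A2)
  obtain ⟨P3, R3⟩ := xsplit (A1 := A3) (A2 := A1) (A3 := A2) (B1 := B3) (X := X) (β1 := β3)
    (b12 := b31) (b13 := b32) (x1 := x3) (x2 := x1) (x3 := x2) hc (by rw [hB3]; module)
    (by linarith) (by linarith) (by linarith) (by rw [hX]; module) (by linarith) y1.le y2.le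
    (by linarith) (by linarith) n31 n32 m3 XA3 XB3
  have p12 : 0 < b12 := by linarith
  have p13 : 0 < b13 := by linarith
  have p21 : 0 < b21 := by linarith
  have p23 : 0 < b23 := by linarith
  have p31 : 0 < b31 := by linarith
  have p32 : 0 < b32 := by linarith
  rcases R1 with Q21 | Q31
  · -- not Q12, so Q32; not Q23, so Q13
    rcases R2 with Q32 | Q12
    · rcases R3 with Q13 | Q23
      · exact cyc_conf hc hB1 hB2 hB3 s1 s2 s3 hβ1 hβ2 hβ3 p12 p13 p21 p23 p31 p32 g12 g23 g31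
          t12 t13 t23 hx hx1 hx2 hx3 Q21 Q32 Q13 n12 n13 n23 m1 m2 m3 E12 E23 E31
      · exact excl p21 p31 y1 (by linarith) t23 Q32 Q23
    · exact excl p13 p23 y3 (by linarith) t12 Q21 Q12
  · -- the reversed pattern: Q31, Q23, Q12
    rcases R3 with Q13 | Q23
    · exact excl p12 p32 y2 (by linarith) t13 Q31 Q13
    · rcases R2 with Q32 | Q12
      · exact excl p21 p31 y1 (by linarith) t23 Q32 Q23
      · -- swap the indices 2 and 3
        exact cyc_conf (A1 := A1) (A2 := A3) (A3 := A2) (B1 := B1) (B2 := B3) (B3 := B2)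
          (β1 := β1) (b12 := b13) (b13 := b12) (β2 := β3) (b21 := b31) (b23 := b32) (β3 := β2)
          (b31 := b21) (b32 := b23) (x1 := x1) (x2 := x3) (x3 := x2) hc (by rw [hB1]; module)
          (by rw [hB3]; module) (by rw [hB2]; module) (by linarith) (by linarith) (by linarith)
          hβ1 hβ3 hβ2 p13 p12 p31 p32 p21 p23 g13 g32 g21 (by linarith) (by linarith) (by linarith)
          (by linarith) hx1 hx3 hx2 Q31 Q23 Q12 n13 n12 n32 m1 m3 m2 E13 E32 E21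

end Pool.Agent.MinkSeven
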