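import Pool.Agent.MinkSeven.Swap

/-!
# Seven points in a normed plane (MP_08f092_co): assembly
-/

set_option autoImplicit false

namespace Pool.Agent.MinkSeven

variable {E : Type*} [NormedAddCommGroup E] [NormedSpace ℝ E]

/-- Two ears cannot both reach the line through `A3` parallel to `A1A2`. -/
lemma nodeg {c : ℝ} {A1 A2 A3 B1 B2 : E} {β1 b12 b13 β2 b21 b23 : ℝ}
    (hB1 : B1 = -β1 • A1 + b12 • A2 + b13 • A3)
    (hB2 : B2 = b21 • A1 + -β2 • A2 + b23 • A3)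
    (s1 : b12 + b13 = 1 + β1) (s2 : b21 + b23 = 1 + β2)
    (hβ1 : 0 < β1) (hβ2 : 0 < β2) (h12 : 0 < b12) (h21 : 0 < b21)
    (g13 : b13 ≤ 1) (g23 : b23 ≤ 1)
    (k12 : ‖B1 - B2‖ ≤ c) (E13 : c < 2 * ‖B1 - A3‖) (E23 : c < 2 * ‖B2 - A3‖) :
    β1 * β2 < b12 * b21 := by
  have l1 : β1 ≤ b12 := by linarith
  have l2 : β2 ≤ b21 := by linarith
  have l3 : β1 * β2 ≤ b12 * b21 := mul_le_mul l1 l2 hβ2.le h12.le
  rcases lt_or_eq_of_le l3 with h | h
  · exact h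
  · exfalso
    have e1 : β1 = b12 := by
      by_contra hne
      have : β1 < b12 := lt_of_le_of_ne l1 hne
      have : β1 * β2 < b12 * b21 :=
        calc β1 * β2 < b12 * β2 := mul_lt_mul_of_pos_right this hβ2
          _ ≤ b12 * b21 := mul_le_mul_of_nonneg_left l2 h12.le
      linarith
    have e2 : β2 = b21 := by
      by_contra hne
      have : β2 < b21 := lt_of_le_of_ne l2 hne
      have : β1 * β2 < b12 * b21 :=
        calc β1 * β2 < β1 * b21 := mul_lt_mul_of_pos_left this hβ1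
          _ ≤ b12 * b21 := mul_le_mul_of_nonneg_right l1 h21.le
      linarith
    have f1 : b13 = 1 := by linarith
    have f2 : b23 = 1 := by linarith
    have d1 : B1 - A3 = b12 • (A2 - A1) := by rw [hB1, e1, f1]; module
    have d2 : B2 - A3 = (-b21) • (A2 - A1) := by rw [hB2, e2, f2]; module
    have d3 : B1 - B2 = (b12 + b21) • (A2 - A1) := by rw [hB1, hB2, e1, e2, f1, f2]; module
    rw [d1, norm_smul, Real.norm_of_nonneg h12.le] at E13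
    rw [d2, norm_smul, norm_neg, Real.norm_of_nonneg h21.le] at E23
    rw [d3, norm_smul, Real.norm_of_nonneg (by linarith)] at k12
    linarith

/-- The configuration of seven points is impossible. -/
theorem conf7 {c₀ : ℝ} (hc : 0 < c₀) {A1 A2 A3 B1 B2 B3 X : E}
    {β1 b12 b13 β2 b21 b23 β3 b31 b32 x1 x2 x3 : ℝ}
    (hB1 : B1 = -β1 • A1 + b12 • A2 + b13 • A3)
    (hB2 : B2 = b21 • A1 + -β2 • A2 + b23 • A3)
    (hB3 : B3 = b31 • A1 + b32 • A2 + -β3 • A3)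
    (hX : X = x1 • A1 + x2 • A2 + x3 • A3)
    (s1 : b12 + b13 = 1 + β1) (s2 : b21 + b23 = 1 + β2) (s3 : b31 + b32 = 1 + β3)
    (hβ1 : 0 < β1) (hβ2 : 0 < β2) (hβ3 : 0 < β3)
    (h12 : 1 / 2 < b12) (h13 : 1 / 2 < b13) (h21 : 1 / 2 < b21) (h23 : 1 / 2 < b23)
    (h31 : 1 / 2 < b31) (h32 : 1 / 2 < b32)
    (g12 : b12 ≤ 1) (g13 : b13 ≤ 1) (g21 : b21 ≤ 1) (g23 : b23 ≤ 1) (g31 : b31 ≤ 1) (g32 : b32 ≤ 1)
    (hx : x1 + x2 + x3 = 1) (hx1 : x1 < 1 / 2) (hx2 : x2 < 1 / 2) (hx3 : x3 < 1 / 2)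
    (hdet : -(β1 * β2 * β3) + b12 * b23 * b31 + b13 * b21 * b32
      + β1 * b23 * b32 + β2 * b13 * b31 + β3 * b12 * b21 ≤ 1)
    (n12 : ‖A1 - A2‖ ≤ c₀) (n13 : ‖A1 - A3‖ ≤ c₀) (n23 : ‖A2 - A3‖ ≤ c₀)
    (m1 : ‖A1 - B1‖ ≤ c₀) (m2 : ‖A2 - B2‖ ≤ c₀) (m3 : ‖A3 - B3‖ ≤ c₀)
    (k12 : ‖B1 - B2‖ ≤ c₀) (k13 : ‖B1 - B3‖ ≤ c₀) (k23 : ‖B2 - B3‖ ≤ c₀)
    (XA1 : c₀ < 2 * ‖A1 - X‖) (XA2 : c₀ < 2 * ‖A2 - X‖) (XA3 : c₀ < 2 * ‖A3 - X‖)
    (XB1 : c₀ < 2 * ‖X - B1‖) (XB2 : c₀ < 2 * ‖X - B2‖) (XB3 : c₀ < 2 * ‖X - B3‖)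
    (E12 : c₀ < 2 * ‖B1 - A2‖) (E13 : c₀ < 2 * ‖B1 - A3‖) (E21 : c₀ < 2 * ‖B2 - A1‖)
    (E23 : c₀ < 2 * ‖B2 - A3‖) (E31 : c₀ < 2 * ‖B3 - A1‖) (E32 : c₀ < 2 * ‖B3 - A2‖) : False := by
  have n21 : ‖A2 - A1‖ ≤ c₀ := by rw [norm_sub_rev]; exact n12
  have n31 : ‖A3 - A1‖ ≤ c₀ := by rw [norm_sub_rev]; exact n13
  have n32 : ‖A3 - A2‖ ≤ c₀ := by rw [norm_sub_rev]; exact n23
  have k21 : ‖B2 - B1‖ ≤ c₀ := by rw [norm_sub_rev]; exact k12
  have k31 : ‖B3 - B1‖ ≤ c₀ := by rw [norm_sub_rev]; exact k13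
  have k32 : ‖B3 - B2‖ ≤ c₀ := by rw [norm_sub_rev]; exact k23
  have F12 : c₀ < 2 * ‖A2 - B1‖ := by rw [norm_sub_rev]; exact E12
  have F13 : c₀ < 2 * ‖A3 - B1‖ := by rw [norm_sub_rev]; exact E13
  have F21 : c₀ < 2 * ‖A1 - B2‖ := by rw [norm_sub_rev]; exact E21
  have F23 : c₀ < 2 * ‖A3 - B2‖ := by rw [norm_sub_rev]; exact E23
  have F31 : c₀ < 2 * ‖A1 - B3‖ := by rw [norm_sub_rev]; exact E31
  have F32 : c₀ < 2 * ‖A2 - B3‖ := by rw [norm_sub_rev]; exact E32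
  have p12 : 0 < b12 := by linarith
  have p13 : 0 < b13 := by linarith
  have p21 : 0 < b21 := by linarith
  have p23 : 0 < b23 := by linarith
  have p31 : 0 < b31 := by linarith
  have p32 : 0 < b32 := by linarith
  have v3 : β1 * β2 < b12 * b21 :=
    nodeg hB1 hB2 s1 s2 hβ1 hβ2 p12 p21 g13 g23 k12 E13 E23
  have v2 : β1 * β3 < b13 * b31 :=
    nodeg (A1 := A1) (A2 := A3) (A3 := A2) (B1 := B1) (B2 := B3) (β1 := β1) (b12 := b13)
      (b13 := b12) (β2 := β3) (b21 := b31) (b23 := b32) (by rw [hB1]; module)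
      (by rw [hB3]; module) (by linarith) s3 hβ1 hβ3 p13 p31 g12 g32 k13 E12 E32
  have v1 : β2 * β3 < b23 * b32 :=
    nodeg (A1 := A2) (A2 := A3) (A3 := A1) (B1 := B2) (B2 := B3) (β1 := β2) (b12 := b23)
      (b13 := b21) (β2 := β3) (b21 := b32) (b23 := b31) (by rw [hB2]; module)
      (by rw [hB3]; module) (by linarith) (by linarith) hβ2 hβ3 p23 p32 g21 g31 k23 E21 E31
  rcases le_or_gt (β1 * b23 + β2 * b13) (b13 * b23) with t12 | t12 <;>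
  rcases le_or_gt (β1 * b32 + β3 * b12) (b12 * b32) with t13 | t13 <;>
  rcases le_or_gt (β2 * b31 + β3 * b21) (b21 * b31) with t23 | t23
  · exact aaa hc hB1 hB2 hB3 hX s1 s2 s3 hβ1 hβ2 hβ3 h12 h13 h21 h23 h31 h32 g12 g13 g21 g23 g31
      g32 t12 t13 t23 hx hx1 hx2 hx3 n12 n13 n23 m1 m2 m3 XA1 XA2 XA3 XB1 XB2 XB3 E12 E13 E21 E23
      E31 E32
  · -- apex A1
    exact apex hc hB1 hB2 hB3 s1 s2 s3 hβ1 hβ2 hβ3 p12 p13 p21 p23 p31 p32 t12 t13 t23.le v3.le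
      v2.le n12 n13 m1 m2 m3 k23 F23 F32 F12 F13
  · -- apex A2
    exact apex (A1 := A2) (A2 := A1) (A3 := A3) (B1 := B2) (B2 := B1) (B3 := B3) (β1 := β2)
      (b12 := b21) (b13 := b23) (β2 := β1) (b21 := b12) (b23 := b13) (β3 := β3) (b31 := b32)
      (b32 := b31) hc (by rw [hB2]; module) (by rw [hB1]; module) (by rw [hB3]; module) s2 s1
      (by linarith) hβ2 hβ1 hβ3 p21 p23 p12 p13 p32 p31 (by linarith) (by linarith) (by linarith)
      (by linarith) v1.le n21 n23 m2 m1 m3 k13 F13 F31 F21 F23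
  · -- only (12): swap
    exact apex_swap hc hB1 hB2 hB3 s1 s2 s3 hβ1 hβ2 hβ3 p12 p13 p21 p23 p31 p32 t12 t13.le t23.le
      v3 v2 v1 n12 m1 m2 m3 k13 k23 F21 F12 F13 F23
  · -- apex A3
    exact apex (A1 := A3) (A2 := A2) (A3 := A1) (B1 := B3) (B2 := B2) (B3 := B1) (β1 := β3)
      (b12 := b32) (b13 := b31) (β2 := β2) (b21 := b23) (b23 := b21) (β3 := β1) (b31 := b13)
      (b32 := b12) hc (by rw [hB3]; module) (by rw [hB2]; module) (by rw [hB1]; module)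
      (by linarith) (by linarith) (by linarith) hβ3 hβ2 hβ1 p32 p31 p23 p21 p13 p12 (by linarith)
      (by linarith) (by linarith) (by linarith) (by linarith) n32 n31 m3 m2 m1 k21 F21 F12 F32 F31
  · -- only (13): swap with 2 <-> 3
    exact apex_swap (A1 := A1) (A2 := A3) (A3 := A2) (B1 := B1) (B2 := B3) (B3 := B2) (β1 := β1)
      (b12 := b13) (b13 := b12) (β2 := β3) (b21 := b31) (b23 := b32) (β3 := β2) (b31 := b21)
      (b32 := b23) hc (by rw [hB1]; module) (by rw [hB3]; module) (by rw [hB2]; module)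
      (by linarith) s3 s2 hβ1 hβ3 hβ2 p13 p12 p31 p32 p21 p23 (by linarith) (by linarith)
      (by linarith) (by linarith) (by linarith) (by linarith) n13 m1 m3 m2 k12 k32 F31 F13 F12 F32
  · -- only (23): swap with 1 <-> 3
    exact apex_swap (A1 := A3) (A2 := A2) (A3 := A1) (B1 := B3) (B2 := B2) (B3 := B1) (β1 := β3)
      (b12 := b32) (b13 := b31) (β2 := β2) (b21 := b23) (b23 := b21) (β3 := β1) (b31 := b13)
      (b32 := b12) hc (by rw [hB3]; module) (by rw [hB2]; module) (by rw [hB1]; module)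
      (by linarith) (by linarith) (by linarith) hβ3 hβ2 hβ1 p32 p31 p23 p21 p13 p12 (by linarith)
      (by linarith) (by linarith) (by linarith) (by linarith) (by linarith) n32 m3 m2 m1 k31 k21
      F23 F32 F31 F21
  · -- none: the area of the triangle of the B's is too large
    have e12 : b12 = 1 + β1 - b13 := by linarith
    have e21 : b21 = 1 + β2 - b23 := by linarith
    have e31 : b31 = 1 + β3 - b32 := by linarith
    have key : -(β1 * β2 * β3) + b12 * b23 * b31 + b13 * b21 * b32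
        + β1 * b23 * b32 + β2 * b13 * b31 + β3 * b12 * b21 - 1
        = (β1 * b23 + β2 * b13 - b13 * b23) + (β1 * b32 + β3 * b12 - b12 * b32)
          + (β2 * b31 + β3 * b21 - b21 * b31) := by
      rw [e12, e21, e31]; ring
    linarith

end Pool.Agent.MinkSeven
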