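import Pool.Agent.MinkSeven.Final

/-!
# Seven points in a normed plane (MP_08f092_co): choice of the triangle and conclusion
-/

set_option autoImplicit false

namespace Pool.Agent.MinkSeven

variable {E : Type*} [NormedAddCommGroup E] [NormedSpace ℝ E]

/-- Oriented area in coordinates. -/
def ar (x y : E → ℝ) (P Q R : E) : ℝ :=
  (x Q - x P) * (y R - y P) - (y Q - y P) * (x R - x P)

/-- outer uniqueness in signed coordinates -/
lemma outer_unique' {c : ℝ} (hc : 0 < c) {A1 A2 A3 P Q : E} {x1 x2 x3 y1 y2 y3 : ℝ}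
    (hs : x1 + x2 + x3 = 1) (ht : y1 + y2 + y3 = 1)
    (hP : P = x1 • A1 + x2 • A2 + x3 • A3) (hQ : Q = y1 • A1 + y2 • A2 + y3 • A3)
    (hx1 : x1 < 0) (hy1 : y1 < 0) (hx2 : x2 ≤ 1) (hx3 : x3 ≤ 1) (hy2 : y2 ≤ 1) (hy3 : y3 ≤ 1)
    (n12 : ‖A1 - A2‖ ≤ c) (n13 : ‖A1 - A3‖ ≤ c) (n23 : ‖A2 - A3‖ ≤ c)
    (nP2 : c < 2 * ‖A2 - P‖) (nP3 : c < 2 * ‖A3 - P‖)
    (nQ2 : c < 2 * ‖A2 - Q‖) (nQ3 : c < 2 * ‖A3 - Q‖) (nP1 : ‖A1 - P‖ ≤ c) (nQ1 : ‖A1 - Q‖ ≤ c)
    (nPQ : c < 2 * ‖Q - P‖) : False :=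
  outer_unique (A1 := A1) (A2 := A2) (A3 := A3) (P := P) (Q := Q) (β := -x1) (y2 := x2) (y3 := x3)
    (γ := -y1) (z2 := y2) (z3 := y3) hc (by linarith) (by linarith) (by rw [hP]; module)
    (by rw [hQ]; module) (by linarith) (by linarith) hx2 hx3 hy2 hy3 n12 n13 n23 nP2 nP3 nQ2 nQ3
    nP1 nQ1 nPQ

/-- Main theorem in contrapositive form. -/
theorem no_seven {c : ℝ} (hc : 0 < c) (hE : Module.finrank ℝ E = 2) (p : Fin 7 → E)
    (up : ∀ i j, ‖p i - p j‖ ≤ c) (lo : ∀ i j, i ≠ j → c < 2 * ‖p i - p j‖) : False := by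
  have : FiniteDimensional ℝ E := Module.finite_of_finrank_eq_succ hE
  let b : Module.Basis (Fin 2) ℝ E := Module.finBasisOfFinrankEq ℝ E hE
  let x : E → ℝ := fun v => b.repr v 0
  let y : E → ℝ := fun v => b.repr v 1
  have hxadd : ∀ u v, x (u + v) = x u + x v := fun u v => by simp [x]
  have hyadd : ∀ u v, y (u + v) = y u + y v := fun u v => by simp [y]
  have hxsmul : ∀ (t : ℝ) v, x (t • v) = t * x v := fun t v => by simp [x]
  have hysmul : ∀ (t : ℝ) v, y (t • v) = t * y v := fun t v => by simp [y]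
  have hxsub : ∀ u v, x (u - v) = x u - x v := fun u v => by simp [x]
  have hysub : ∀ u v, y (u - v) = y u - y v := fun u v => by simp [y]
  have hext : ∀ u v, x u = x v → y u = y v → u = v := by
    intro u v h1 h2
    apply b.ext_elem
    intro i
    fin_cases i
    · exact h1
    · exact h2
  -- the triangle of largest area
  obtain ⟨⟨i, j, k⟩, hmax⟩ := Finite.exists_max
    (fun n : Fin 7 × Fin 7 × Fin 7 => |ar x y (p n.1) (p n.2.1) (p n.2.2)|)
  have hmax' : ∀ l m n, |ar x y (p l) (p m) (p n)| ≤ |ar x y (p i) (p j) (p k)| :=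
    fun l m n => hmax (l, m, n)
  -- it is not degenerate
  have hΔ : ar x y (p i) (p j) (p k) ≠ 0 := by
    intro h0
    have h1 : ar x y (p 0) (p 1) (p 2) = 0 := by
      have := hmax' 0 1 2
      rw [h0, abs_zero] at this
      exact abs_nonpos_iff.1 this
    -- `p 2 - p 0` is a multiple of `p 1 - p 0`
    obtain ⟨τ, hτ⟩ : ∃ τ : ℝ, p 2 - p 0 = τ • (p 1 - p 0) := by
      unfold ar at h1
      have hne : p 1 - p 0 ≠ 0 := by
        intro h
        have := lo 1 0 (by decide)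
        rw [h, norm_zero] at this
        linarith
      by_cases hx0 : x (p 1) - x (p 0) = 0
      · have hy0 : y (p 1) - y (p 0) ≠ 0 := by
          intro h
          apply hne
          apply hext
          · rw [hxsub, hx0]; simp [x]
          · rw [hysub, h]; simp [y]
        refine ⟨(y (p 2) - y (p 0)) / (y (p 1) - y (p 0)), ?_⟩
        apply hext
        · rw [hxsub, hxsmul, hxsub, hx0]
          rw [hx0] at h1
          have : x (p 2) - x (p 0) = 0 := by
            rcases mul_eq_zero.1 (show (y (p 1) - y (p 0)) * (x (p 2) - x (p 0)) = 0 by linarith)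
              with h | h
            · exact absurd h hy0
            · exact h
          rw [this]; ring
        · rw [hysub, hysmul, hysub]; field_simp
      · refine ⟨(x (p 2) - x (p 0)) / (x (p 1) - x (p 0)), ?_⟩
        apply hext
        · rw [hxsub, hxsmul, hxsub]; field_simp
        · rw [hysub, hysmul, hysub]
          field_simp
          linarith
    have u10 := up 1 0
    have u20 := up 2 0
    have u21 := up 2 1
    have l10 := lo 1 0 (by decide)
    have l20 := lo 2 0 (by decide)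
    have l21 := lo 2 1 (by decide)
    have e21 : p 2 - p 1 = (τ - 1) • (p 1 - p 0) := by
      have : p 2 - p 1 = (p 2 - p 0) - (p 1 - p 0) := by abel
      rw [this, hτ]; module
    rw [hτ, norm_smul, Real.norm_eq_abs] at u20 l20
    rw [e21, norm_smul, Real.norm_eq_abs] at u21 l21
    rcases le_total 1 τ with h | h
    · rw [abs_of_nonneg (by linarith)] at u20 l20
      rw [abs_of_nonneg (by linarith)] at u21 l21
      linarith
    · rcases le_total 0 τ with h' | h'
      · rw [abs_of_nonneg h'] at u20 l20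
        rw [abs_of_nonpos (by linarith)] at u21 l21
        linarith
      · rw [abs_of_nonpos h'] at u20 l20
        rw [abs_of_nonpos (by linarith)] at u21 l21
        linarith
  -- notation
  obtain ⟨Δ, hΔdef⟩ : ∃ Δ, Δ = ar x y (p i) (p j) (p k) := ⟨_, rfl⟩
  rw [← hΔdef] at hΔ
  have hij : i ≠ j := by
    rintro rfl
    apply hΔ; rw [hΔdef]; unfold ar; ring
  have hik : i ≠ k := by
    rintro rfl
    apply hΔ; rw [hΔdef]; unfold ar; ring
  have hjk : j ≠ k := by
    rintro rfl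
    apply hΔ; rw [hΔdef]; unfold ar; ring
  -- barycentric coordinates
  obtain ⟨l1, hl1⟩ : ∃ l1 : Fin 7 → ℝ, ∀ n, l1 n = ar x y (p n) (p j) (p k) / Δ := ⟨_, fun _ => rfl⟩
  obtain ⟨l2, hl2⟩ : ∃ l2 : Fin 7 → ℝ, ∀ n, l2 n = ar x y (p i) (p n) (p k) / Δ := ⟨_, fun _ => rfl⟩
  obtain ⟨l3, hl3⟩ : ∃ l3 : Fin 7 → ℝ, ∀ n, l3 n = ar x y (p i) (p j) (p n) / Δ := ⟨_, fun _ => rfl⟩
  have m1 : ∀ n, Δ * l1 n = ar x y (p n) (p j) (p k) := fun n => by rw [hl1]; field_simp
  have m2 : ∀ n, Δ * l2 n = ar x y (p i) (p n) (p k) := fun n => by rw [hl2]; field_simp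
  have m3 : ∀ n, Δ * l3 n = ar x y (p i) (p j) (p n) := fun n => by rw [hl3]; field_simp
  have hsum : ∀ n, l1 n + l2 n + l3 n = 1 := by
    intro n
    have : Δ * (l1 n + l2 n + l3 n) = Δ * 1 := by
      rw [mul_add, mul_add, m1, m2, m3, mul_one, hΔdef]; unfold ar; ring
    exact mul_left_cancel₀ hΔ this
  have hrep : ∀ n, p n = l1 n • p i + l2 n • p j + l3 n • p k := by
    intro n
    have hx : Δ * x (p n) = Δ * (l1 n * x (p i) + l2 n * x (p j) + l3 n * x (p k)) := by
      have : Δ * (l1 n * x (p i) + l2 n * x (p j) + l3 n * x (p k)) =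
        (Δ * l1 n) * x (p i) + (Δ * l2 n) * x (p j) + (Δ * l3 n) * x (p k) := by ring
      rw [this, m1, m2, m3, hΔdef]; unfold ar; ring
    have hy : Δ * y (p n) = Δ * (l1 n * y (p i) + l2 n * y (p j) + l3 n * y (p k)) := by
      have : Δ * (l1 n * y (p i) + l2 n * y (p j) + l3 n * y (p k)) =
        (Δ * l1 n) * y (p i) + (Δ * l2 n) * y (p j) + (Δ * l3 n) * y (p k) := by ring
      rw [this, m1, m2, m3, hΔdef]; unfold ar; ring
    apply hext
    · rw [hxadd, hxadd, hxsmul, hxsmul, hxsmul]; exact mul_left_cancel₀ hΔ hx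
    · rw [hyadd, hyadd, hysmul, hysmul, hysmul]; exact mul_left_cancel₀ hΔ hy
  have habs : ∀ (l a : ℝ), Δ * l = a → |a| ≤ |Δ| → l ≤ 1 := by
    intro l a h1 h2
    rw [← h1, abs_mul] at h2
    have h3 : |Δ| * |l| ≤ |Δ| * 1 := by linarith
    have := le_of_mul_le_mul_left h3 (abs_pos.2 hΔ)
    exact (le_abs_self l).trans this
  have b1 : ∀ n, l1 n ≤ 1 := fun n => habs _ _ (m1 n) (by rw [hΔdef]; exact hmax' _ _ _)
  have b2 : ∀ n, l2 n ≤ 1 := fun n => habs _ _ (m2 n) (by rw [hΔdef]; exact hmax' _ _ _)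
  have b3 : ∀ n, l3 n ≤ 1 := fun n => habs _ _ (m3 n) (by rw [hΔdef]; exact hmax' _ _ _)
  -- the regions
  let reg : Fin 7 → Fin 4 := fun n => if l1 n < 0 then 1 else if l2 n < 0 then 2 else
    if l3 n < 0 then 3 else 0
  have reg0 : ∀ n, reg n = 0 → 0 ≤ l1 n ∧ 0 ≤ l2 n ∧ 0 ≤ l3 n := by
    intro n h
    simp only [reg] at h
    split_ifs at h with h1 h2 h3
    · exact absurd h (by decide)
    · exact absurd h (by decide)
    · exact absurd h (by decide)
    · exact ⟨not_lt.1 h1, not_lt.1 h2, not_lt.1 h3⟩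
  have reg1 : ∀ n, reg n = 1 → l1 n < 0 := by
    intro n h
    simp only [reg] at h
    split_ifs at h with h1 h2 h3
    · exact h1
    · exact absurd h (by decide)
    · exact absurd h (by decide)
    · exact absurd h (by decide)
  have reg2 : ∀ n, reg n = 2 → l2 n < 0 := by
    intro n h
    simp only [reg] at h
    split_ifs at h with h1 h2 h3
    · exact absurd h (by decide)
    · exact h2
    · exact absurd h (by decide)
    · exact absurd h (by decide)
  have reg3 : ∀ n, reg n = 3 → l3 n < 0 := by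
    intro n h
    simp only [reg] at h
    split_ifs at h with h1 h2 h3
    · exact absurd h (by decide)
    · exact absurd h (by decide)
    · exact h3
    · exact absurd h (by decide)
  let S : Finset (Fin 7) := Finset.univ \ {i, j, k}
  have hScard : S.card = 4 := by
    have h1 : ({i, j, k} : Finset (Fin 7)).card = 3 := by
      rw [Finset.card_insert_of_notMem, Finset.card_insert_of_notMem, Finset.card_singleton]
      · simpa using hjk
      · simp [hij, hik]
    have h2 := Finset.card_sdiff_of_subset (Finset.subset_univ ({i, j, k} : Finset (Fin 7)))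
    rw [h1] at h2
    simpa [S] using h2
  have hSmem : ∀ n ∈ S, n ≠ i ∧ n ≠ j ∧ n ≠ k := by
    intro n hn
    simpa [S] using hn
  have hinj : Set.InjOn reg S := by
    intro m hm n hn hmn
    by_contra hne
    obtain ⟨mi, mj, mk⟩ := hSmem m hm
    obtain ⟨ni, nj, nk⟩ := hSmem n hn
    have hr : reg m = 0 ∨ reg m = 1 ∨ reg m = 2 ∨ reg m = 3 := by
      generalize reg m = r
      fin_cases r <;> simp
    rcases hr with h | h | h | h
    · obtain ⟨c1, c2, c3⟩ := reg0 m h
      obtain ⟨d1, d2, d3⟩ := reg0 n (hmn ▸ h)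
      exact inside_unique hc (hsum m) (hsum n) (hrep m) (hrep n) c1 c2 c3 d1 d2 d3 (up _ _)
        (up _ _) (up _ _) (lo _ _ mi.symm) (lo _ _ mj.symm) (lo _ _ mk.symm) (lo _ _ ni.symm)
        (lo _ _ nj.symm) (lo _ _ nk.symm) (lo _ _ hne)
    · exact outer_unique' hc (hsum m) (hsum n) (hrep m) (hrep n) (reg1 m h) (reg1 n (hmn ▸ h))
        (b2 m) (b3 m) (b2 n) (b3 n) (up _ _) (up _ _) (up _ _) (lo _ _ mj.symm) (lo _ _ mk.symm)
        (lo _ _ nj.symm) (lo _ _ nk.symm) (up _ _) (up _ _) (lo _ _ (Ne.symm hne))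
    · refine outer_unique' (A1 := p j) (A2 := p i) (A3 := p k) (P := p m) (Q := p n)
        (x1 := l2 m) (x2 := l1 m) (x3 := l3 m) (y1 := l2 n) (y2 := l1 n) (y3 := l3 n) hc
        (by have := hsum m; linarith) (by have := hsum n; linarith)
        ?_ ?_ (reg2 m h) (reg2 n (hmn ▸ h))
        (b1 m) (b3 m) (b1 n) (b3 n) (up _ _) (up _ _) (up _ _) (lo _ _ mi.symm) (lo _ _ mk.symm)
        (lo _ _ ni.symm) (lo _ _ nk.symm) (up _ _) (up _ _) (lo _ _ (Ne.symm hne))
      · conv_lhs => rw [hrep m]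
        abel
      · conv_lhs => rw [hrep n]
        abel
    · refine outer_unique' (A1 := p k) (A2 := p i) (A3 := p j) (P := p m) (Q := p n)
        (x1 := l3 m) (x2 := l1 m) (x3 := l2 m) (y1 := l3 n) (y2 := l1 n) (y3 := l2 n) hc
        (by have := hsum m; linarith) (by have := hsum n; linarith)
        ?_ ?_ (reg3 m h) (reg3 n (hmn ▸ h))
        (b1 m) (b2 m) (b1 n) (b2 n) (up _ _) (up _ _) (up _ _) (lo _ _ mi.symm) (lo _ _ mj.symm)
        (lo _ _ ni.symm) (lo _ _ nj.symm) (up _ _) (up _ _) (lo _ _ (Ne.symm hne))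
      · conv_lhs => rw [hrep m]
        abel
      · conv_lhs => rw [hrep n]
        abel
  have himg : S.image reg = Finset.univ := by
    apply Finset.eq_univ_of_card
    rw [Finset.card_image_of_injOn hinj, hScard]
    simp
  have hex : ∀ r : Fin 4, ∃ n ∈ S, reg n = r := by
    intro r
    have : r ∈ S.image reg := by rw [himg]; exact Finset.mem_univ _
    simpa using Finset.mem_image.1 this
  obtain ⟨X, hXS, hX⟩ := hex 0
  obtain ⟨B1, hB1S, hB1⟩ := hex 1
  obtain ⟨B2, hB2S, hB2⟩ := hex 2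
  obtain ⟨B3, hB3S, hB3⟩ := hex 3
  have hXB1 : X ≠ B1 := by rintro rfl; rw [hX] at hB1; exact absurd hB1 (by decide)
  have hXB2 : X ≠ B2 := by rintro rfl; rw [hX] at hB2; exact absurd hB2 (by decide)
  have hXB3 : X ≠ B3 := by rintro rfl; rw [hX] at hB3; exact absurd hB3 (by decide)
  obtain ⟨Xi, Xj, Xk⟩ := hSmem X hXS
  obtain ⟨B1i, B1j, B1k⟩ := hSmem B1 hB1S
  obtain ⟨B2i, B2j, B2k⟩ := hSmem B2 hB2S
  obtain ⟨B3i, B3j, B3k⟩ := hSmem B3 hB3S
  obtain ⟨X1, X2, X3⟩ := reg0 X hX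
  have g1 := reg1 B1 hB1
  have g2 := reg2 B2 hB2
  have g3 := reg3 B3 hB3
  have sX := hsum X
  have sB1 := hsum B1
  have sB2 := hsum B2
  have sB3 := hsum B3
  -- the coordinates of `X`
  have x1 : l1 X < 1 / 2 := inside_lt hc sX (hrep X) X2 X3 (up _ _) (up _ _) (lo _ _ Xi.symm)
  have x2 : l2 X < 1 / 2 := by
    refine inside_lt (A1 := p j) (A2 := p i) (A3 := p k) (X := p X) (x := l2 X) (y := l1 X)
      (z := l3 X) hc (by linarith) ?_ X1 X3 (up _ _) (up _ _) (lo _ _ Xj.symm)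
    conv_lhs => rw [hrep X]
    abel
  have x3 : l3 X < 1 / 2 := by
    refine inside_lt (A1 := p k) (A2 := p i) (A3 := p j) (X := p X) (x := l3 X) (y := l1 X)
      (z := l2 X) hc (by linarith) ?_ X1 X2 (up _ _) (up _ _) (lo _ _ Xk.symm)
    conv_lhs => rw [hrep X]
    abel
  -- representation of the ears
  have r1 : p B1 = -(-l1 B1) • p i + l2 B1 • p j + l3 B1 • p k := by
    rw [neg_neg]; exact hrep B1
  have r2 : p B2 = l1 B2 • p i + -(-l2 B2) • p j + l3 B2 • p k := by
    rw [neg_neg]; exact hrep B2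
  have r3 : p B3 = l1 B3 • p i + l2 B3 • p j + -(-l3 B3) • p k := by
    rw [neg_neg]; exact hrep B3
  have c13 : 1 / 2 < l3 B1 := outer_gt (A1 := p i) (A2 := p j) (A3 := p k) (B := p B1)
    (β := -l1 B1) (x := l2 B1) (y := l3 B1) hc (by linarith) r1 (by linarith) (b2 B1) (up _ _)
    (up _ _) (lo _ _ B1j.symm)
  have c12 : 1 / 2 < l2 B1 := outer_gt (A1 := p i) (A2 := p k) (A3 := p j) (B := p B1)
    (β := -l1 B1) (x := l3 B1) (y := l2 B1) hc (by linarith)
    (by conv_lhs => rw [r1]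
        abel) (by linarith) (b3 B1) (up _ _) (up _ _) (lo _ _ B1k.symm)
  have c23 : 1 / 2 < l3 B2 := outer_gt (A1 := p j) (A2 := p i) (A3 := p k) (B := p B2)
    (β := -l2 B2) (x := l1 B2) (y := l3 B2) hc (by linarith)
    (by conv_lhs => rw [r2]
        abel) (by linarith) (b1 B2) (up _ _) (up _ _) (lo _ _ B2i.symm)
  have c21 : 1 / 2 < l1 B2 := outer_gt (A1 := p j) (A2 := p k) (A3 := p i) (B := p B2)
    (β := -l2 B2) (x := l3 B2) (y := l1 B2) hc (by linarith)
    (by conv_lhs => rw [r2]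
        abel) (by linarith) (b3 B2) (up _ _) (up _ _) (lo _ _ B2k.symm)
  have c32 : 1 / 2 < l2 B3 := outer_gt (A1 := p k) (A2 := p i) (A3 := p j) (B := p B3)
    (β := -l3 B3) (x := l1 B3) (y := l2 B3) hc (by linarith)
    (by conv_lhs => rw [r3]
        abel) (by linarith) (b1 B3) (up _ _) (up _ _) (lo _ _ B3i.symm)
  have c31 : 1 / 2 < l1 B3 := outer_gt (A1 := p k) (A2 := p j) (A3 := p i) (B := p B3)
    (β := -l3 B3) (x := l2 B3) (y := l1 B3) hc (by linarith)
    (by conv_lhs => rw [r3]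
        abel) (by linarith) (b2 B3) (up _ _) (up _ _) (lo _ _ B3j.symm)
  -- the area of the triangle of the ears
  have hdet : -((-l1 B1) * (-l2 B2) * (-l3 B3)) + l2 B1 * l3 B2 * l1 B3 + l3 B1 * l1 B2 * l2 B3
      + (-l1 B1) * l3 B2 * l2 B3 + (-l2 B2) * l3 B1 * l1 B3 + (-l3 B3) * l2 B1 * l1 B2 ≤ 1 := by
    apply habs _ (ar x y (p B1) (p B2) (p B3)) _ (by rw [hΔdef]; exact hmax' _ _ _)
    have hx : ∀ n, x (p n) = l1 n * x (p i) + l2 n * x (p j) + l3 n * x (p k) := by
      intro n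
      conv_lhs => rw [hrep n]
      rw [hxadd, hxadd, hxsmul, hxsmul, hxsmul]
    have hy : ∀ n, y (p n) = l1 n * y (p i) + l2 n * y (p j) + l3 n * y (p k) := by
      intro n
      conv_lhs => rw [hrep n]
      rw [hyadd, hyadd, hysmul, hysmul, hysmul]
    have q1 : l1 B1 = 1 - l2 B1 - l3 B1 := by linarith
    have q2 : l1 B2 = 1 - l2 B2 - l3 B2 := by linarith
    have q3 : l1 B3 = 1 - l2 B3 - l3 B3 := by linarith
    rw [hΔdef]
    unfold ar
    rw [hx B1, hx B2, hx B3, hy B1, hy B2, hy B3, q1, q2, q3]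
    ring
  exact conf7 hc r1 r2 r3 (hrep X) (by linarith) (by linarith) (by linarith) (by linarith)
    (by linarith) (by linarith) c12 c13 c21 c23 c31 c32 (b2 B1) (b3 B1) (b1 B2) (b3 B2) (b1 B3)
    (b2 B3) sX x1 x2 x3 hdet (up _ _) (up _ _) (up _ _) (up _ _) (up _ _) (up _ _) (up _ _)
    (up _ _) (up _ _) (lo _ _ Xi.symm) (lo _ _ Xj.symm) (lo _ _ Xk.symm) (lo _ _ hXB1)
    (lo _ _ hXB2) (lo _ _ hXB3) (lo _ _ B1j) (lo _ _ B1k) (lo _ _ B2i) (lo _ _ B2k) (lo _ _ B3i)
    (lo _ _ B3j)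

/-- Seven distinct points of a normed plane: the largest distance is at least twice the
smallest. -/
theorem seven (hE : Module.finrank ℝ E = 2) (p : Fin 7 → E) (hp : Function.Injective p) :
    ∃ i j k l : Fin 7, k ≠ l ∧ 2 * dist (p k) (p l) ≤ dist (p i) (p j) := by
  by_contra hcon
  push Not at hcon
  obtain ⟨⟨i, j⟩, hmax⟩ := Finite.exists_max (fun n : Fin 7 × Fin 7 => dist (p n.1) (p n.2))
  have h01 : 0 < dist (p 0) (p 1) := dist_pos.2 (fun h => absurd (hp h) (by decide))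
  have hc : 0 < dist (p i) (p j) := lt_of_lt_of_le h01 (hmax (0, 1))
  refine no_seven hc hE p (fun k l => ?_) (fun k l hkl => ?_)
  · rw [← dist_eq_norm]; exact hmax (k, l)
  · rw [← dist_eq_norm]; exact hcon i j k l hkl

end Pool.Agent.MinkSeven
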