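import Pool.Agent.MinkSeven.Apex

/-!
# Seven points in a normed plane (MP_08f092_co): exchanging the two triangles
-/

set_option autoImplicit false

namespace Pool.Agent.MinkSeven

variable {E : Type*} [NormedAddCommGroup E] [NormedSpace ℝ E]

/-- The configuration with exactly one antipodal pair among the `A`'s is impossible
(apply `apex` to the triangle of the `B`'s, with apex `B3`). -/
theorem apex_swap {c₀ : ℝ} (hc : 0 < c₀) {A1 A2 A3 B1 B2 B3 : E}
    {β1 b12 b13 β2 b21 b23 β3 b31 b32 : ℝ}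
    (hB1 : B1 = -β1 • A1 + b12 • A2 + b13 • A3)
    (hB2 : B2 = b21 • A1 + -β2 • A2 + b23 • A3)
    (hB3 : B3 = b31 • A1 + b32 • A2 + -β3 • A3)
    (s1 : b12 + b13 = 1 + β1) (s2 : b21 + b23 = 1 + β2) (s3 : b31 + b32 = 1 + β3)
    (hβ1 : 0 < β1) (hβ2 : 0 < β2) (hβ3 : 0 < β3)
    (h12 : 0 < b12) (h13 : 0 < b13) (h21 : 0 < b21) (h23 : 0 < b23) (h31 : 0 < b31) (h32 : 0 < b32)
    (t12 : β1 * b23 + β2 * b13 ≤ b13 * b23) (t13 : b12 * b32 ≤ β1 * b32 + β3 * b12)
    (t23 : b21 * b31 ≤ β2 * b31 + β3 * b21)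
    (v3 : β1 * β2 < b12 * b21) (v2 : β1 * β3 < b13 * b31) (v1 : β2 * β3 < b23 * b32)
    (n12 : ‖A1 - A2‖ ≤ c₀)
    (m1 : ‖A1 - B1‖ ≤ c₀) (m2 : ‖A2 - B2‖ ≤ c₀) (m3 : ‖A3 - B3‖ ≤ c₀)
    (m13 : ‖B1 - B3‖ ≤ c₀) (m23 : ‖B2 - B3‖ ≤ c₀)
    (E1 : c₀ < 2 * ‖A1 - B2‖) (E2 : c₀ < 2 * ‖A2 - B1‖)
    (E3 : c₀ < 2 * ‖A3 - B1‖) (E4 : c₀ < 2 * ‖A3 - B2‖) : False := by
  obtain ⟨D, hD⟩ : ∃ D : ℝ, D = -(β1 * β2 * β3) + b12 * b23 * b31 + b13 * b21 * b32
    + β1 * b23 * b32 + β2 * b13 * b31 + β3 * b12 * b21 := ⟨_, rfl⟩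
  have hD0 : 0 < D := by
    have k1 := mul_pos (mul_pos h12 h23) h31
    have k2 := mul_pos (mul_pos h13 h21) h32
    have k3 := mul_pos (mul_pos hβ1 h23) h32
    have k4 := mul_pos (mul_pos hβ2 h13) h31
    have k5 := mul_pos hβ3 (show (0:ℝ) < b12 * b21 - β1 * β2 by linarith)
    rw [hD]; linarith
  obtain ⟨i, hi⟩ : ∃ i : ℝ, D * i = 1 := ⟨D⁻¹, mul_inv_cancel₀ hD0.ne'⟩
  have hi0 : 0 < i := (mul_pos_iff_of_pos_left hD0).1 (by rw [hi]; exact one_pos)
  have hii : 0 < i * i := mul_pos hi0 hi0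
  -- unnormalized entries of the inverse matrix
  have e12 : b12 = 1 + β1 - b13 := by linarith
  have e21 : b21 = 1 + β2 - b23 := by linarith
  have e31 : b31 = 1 + β3 - b32 := by linarith
  -- kappa identities
  have K13 : (b31 * b12 + β1 * b32) * (b13 * b32 + β3 * b12)
      - (b12 * b21 - β1 * β2) * (b13 * b32 + β3 * b12)
      - (b23 * b32 - β2 * β3) * (b31 * b12 + β1 * b32)
      = D * (β1 * b32 + β3 * b12 - b12 * b32) := by
    rw [hD, e12, e21, e31]; ring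
  have K23 : (b32 * b21 + β2 * b31) * (b23 * b31 + β3 * b21)
      - (b12 * b21 - β1 * β2) * (b23 * b31 + β3 * b21)
      - (b13 * b31 - β1 * β3) * (b32 * b21 + β2 * b31)
      = D * (β2 * b31 + β3 * b21 - b21 * b31) := by
    rw [hD, e12, e21, e31]; ring
  have K12 : (b12 * b23 + β2 * b13) * (b21 * b13 + β1 * b23)
      - (b23 * b32 - β2 * β3) * (b21 * b13 + β1 * b23)
      - (b13 * b31 - β1 * β3) * (b12 * b23 + β2 * b13)
      = D * (β1 * b23 + β2 * b13 - b13 * b23) := by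
    rw [hD, e12, e21, e31]; ring
  have U12 : (b32 * b21 + β2 * b31) * (b12 * b23 + β2 * b13)
      - (b12 * b21 - β1 * β2) * (b23 * b32 - β2 * β3) = D * β2 := by
    rw [hD]; ring
  have U13 : (b31 * b12 + β1 * b32) * (b21 * b13 + β1 * b23)
      - (b12 * b21 - β1 * β2) * (b13 * b31 - β1 * β3) = D * β1 := by
    rw [hD]; ring
  have S1 : (b32 * b21 + β2 * b31) + (b31 * b12 + β1 * b32) = D + (b12 * b21 - β1 * β2) := by
    rw [hD, e12, e21, e31]; ring
  have S2 : (b12 * b23 + β2 * b13) + (b13 * b32 + β3 * b12) = D + (b23 * b32 - β2 * β3) := by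
    rw [hD, e12, e21, e31]; ring
  have S3 : (b21 * b13 + β1 * b23) + (b23 * b31 + β3 * b21) = D + (b13 * b31 - β1 * β3) := by
    rw [hD, e12, e21, e31]; ring
  have n31 : ‖B3 - B1‖ ≤ c₀ := by rw [norm_sub_rev]; exact m13
  have n32 : ‖B3 - B2‖ ≤ c₀ := by rw [norm_sub_rev]; exact m23
  refine apex (A1 := B3) (A2 := B1) (A3 := B2) (B1 := A3) (B2 := A1) (B3 := A2)
    (β1 := (b12 * b21 - β1 * β2) * i) (b12 := (b32 * b21 + β2 * b31) * i)
    (b13 := (b31 * b12 + β1 * b32) * i)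
    (β2 := (b23 * b32 - β2 * β3) * i) (b21 := (b12 * b23 + β2 * b13) * i)
    (b23 := (b13 * b32 + β3 * b12) * i)
    (β3 := (b13 * b31 - β1 * β3) * i) (b31 := (b21 * b13 + β1 * b23) * i)
    (b32 := (b23 * b31 + β3 * b21) * i) hc ?_ ?_ ?_ ?_ ?_ ?_ ?_ ?_ ?_ ?_ ?_ ?_ ?_ ?_ ?_ ?_ ?_ ?_
    ?_ ?_ n31 n32 ?_ ?_ ?_ n12 ?_ ?_ ?_ ?_
  · -- A3
    have : A3 = (D * i) • A3 := by rw [hi, one_smul]
    rw [hB1, hB2, hB3]
    nth_rewrite 1 [this]
    rw [hD]
    module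
  · have : A1 = (D * i) • A1 := by rw [hi, one_smul]
    rw [hB1, hB2, hB3]
    nth_rewrite 1 [this]
    rw [hD]
    module
  · have : A2 = (D * i) • A2 := by rw [hi, one_smul]
    rw [hB1, hB2, hB3]
    nth_rewrite 1 [this]
    rw [hD]
    module
  · calc (b32 * b21 + β2 * b31) * i + (b31 * b12 + β1 * b32) * i
        = ((b32 * b21 + β2 * b31) + (b31 * b12 + β1 * b32)) * i := by ring
      _ = D * i + (b12 * b21 - β1 * β2) * i := by rw [S1]; ring
      _ = 1 + (b12 * b21 - β1 * β2) * i := by rw [hi]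
  · calc (b12 * b23 + β2 * b13) * i + (b13 * b32 + β3 * b12) * i
        = ((b12 * b23 + β2 * b13) + (b13 * b32 + β3 * b12)) * i := by ring
      _ = D * i + (b23 * b32 - β2 * β3) * i := by rw [S2]; ring
      _ = 1 + (b23 * b32 - β2 * β3) * i := by rw [hi]
  · calc (b21 * b13 + β1 * b23) * i + (b23 * b31 + β3 * b21) * i
        = ((b21 * b13 + β1 * b23) + (b23 * b31 + β3 * b21)) * i := by ring
      _ = D * i + (b13 * b31 - β1 * β3) * i := by rw [S3]; ring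
      _ = 1 + (b13 * b31 - β1 * β3) * i := by rw [hi]
  · exact mul_pos (by linarith) hi0
  · exact mul_pos (by linarith) hi0
  · exact mul_pos (by linarith) hi0
  · exact mul_pos (by positivity) hi0
  · exact mul_pos (by positivity) hi0
  · exact mul_pos (by positivity) hi0
  · exact mul_pos (by positivity) hi0
  · exact mul_pos (by positivity) hi0
  · exact mul_pos (by positivity) hi0
  · -- t12
    have := mul_nonneg hii.le (mul_nonneg hD0.le
      (show (0:ℝ) ≤ β1 * b32 + β3 * b12 - b12 * b32 by linarith))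
    rw [← K13] at this
    linarith
  · have := mul_nonneg hii.le (mul_nonneg hD0.le
      (show (0:ℝ) ≤ β2 * b31 + β3 * b21 - b21 * b31 by linarith))
    rw [← K23] at this
    linarith
  · have := mul_nonneg hii.le (mul_nonneg hD0.le
      (show (0:ℝ) ≤ b13 * b23 - (β1 * b23 + β2 * b13) by linarith))
    have e : D * (b13 * b23 - (β1 * b23 + β2 * b13)) = -(D * (β1 * b23 + β2 * b13 - b13 * b23)) := by
      ring
    rw [e, ← K12] at this
    linarith
  · have := mul_nonneg hii.le (mul_nonneg hD0.le hβ2.le)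
    rw [← U12] at this
    linarith
  · have := mul_nonneg hii.le (mul_nonneg hD0.le hβ1.le)
    rw [← U13] at this
    linarith
  · rw [norm_sub_rev]; exact m3
  · rw [norm_sub_rev]; exact m1
  · rw [norm_sub_rev]; exact m2
  · rw [norm_sub_rev]; exact E1
  · rw [norm_sub_rev]; exact E2
  · rw [norm_sub_rev]; exact E3
  · rw [norm_sub_rev]; exact E4

end Pool.Agent.MinkSeven
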