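import Pool.Agent.MinkSeven.AlgApex

/-!
# Seven points in a normed plane (MP_08f092_co): estimates of norms
-/

set_option autoImplicit false

namespace Pool.Agent.MinkSeven

variable {E : Type*} [NormedAddCommGroup E] [NormedSpace ℝ E]

/-- A vector in the cone spanned by two vectors of norm at most `c`, in coordinates. -/
lemma cone {c : ℝ} (hc : 0 < c) {A1 A2 A3 U V Z : E} {u1 u2 v1 v2 z1 z2 : ℝ}
    (hU : U = u1 • A1 + u2 • A2 - (u1 + u2) • A3)
    (hV : V = v1 • A1 + v2 • A2 - (v1 + v2) • A3)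
    (hZ : Z = z1 • A1 + z2 • A2 - (z1 + z2) • A3)
    (nU : ‖U‖ ≤ c) (nV : ‖V‖ ≤ c) (nZ : c < 2 * ‖Z‖)
    (h1 : 0 ≤ z1 * v2 - z2 * v1) (h2 : 0 ≤ u1 * z2 - u2 * z1) (h3 : 0 < u1 * v2 - u2 * v1) :
    u1 * v2 - u2 * v1 < 2 * ((z1 * v2 - z2 * v1) + (u1 * z2 - u2 * z1)) := by
  have key : (u1 * v2 - u2 * v1) • Z = (z1 * v2 - z2 * v1) • U + (u1 * z2 - u2 * z1) • V := by
    rw [hU, hV, hZ]; module
  have hn : (u1 * v2 - u2 * v1) * ‖Z‖ ≤ ((z1 * v2 - z2 * v1) + (u1 * z2 - u2 * z1)) * c := by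
    calc (u1 * v2 - u2 * v1) * ‖Z‖ = ‖(u1 * v2 - u2 * v1) • Z‖ := by
          rw [norm_smul, Real.norm_of_nonneg h3.le]
      _ = ‖(z1 * v2 - z2 * v1) • U + (u1 * z2 - u2 * z1) • V‖ := by rw [key]
      _ ≤ ‖(z1 * v2 - z2 * v1) • U‖ + ‖(u1 * z2 - u2 * z1) • V‖ := norm_add_le _ _
      _ = (z1 * v2 - z2 * v1) * ‖U‖ + (u1 * z2 - u2 * z1) * ‖V‖ := by
          rw [norm_smul, norm_smul, Real.norm_of_nonneg h1, Real.norm_of_nonneg h2]
      _ ≤ (z1 * v2 - z2 * v1) * c + (u1 * z2 - u2 * z1) * c :=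
          add_le_add (mul_le_mul_of_nonneg_left nU h1) (mul_le_mul_of_nonneg_left nV h2)
      _ = ((z1 * v2 - z2 * v1) + (u1 * z2 - u2 * z1)) * c := by ring
  have h4 := mul_lt_mul_of_pos_left nZ h3
  have h5 : (u1 * v2 - u2 * v1) * c < (2 * ((z1 * v2 - z2 * v1) + (u1 * z2 - u2 * z1))) * c := by
    linarith
  exact lt_of_mul_lt_mul_right h5 hc.le

/-- Sector estimate at `A1` with the ear `B1` opposite to `A1`. -/
lemma sector {c : ℝ} (hc : 0 < c) {A1 A2 A3 B1 Z : E} {β b12 b13 u v : ℝ}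
    (hB : B1 = -β • A1 + b12 • A2 + b13 • A3) (hs : b12 + b13 = 1 + β)
    (h12 : 0 < b12) (h13 : 0 < b13) (hu : 0 ≤ u) (hv : 0 ≤ v)
    (hZ : Z = (u + v) • A1 - u • A2 - v • A3)
    (n12 : ‖A1 - A2‖ ≤ c) (n13 : ‖A1 - A3‖ ≤ c) (nB : ‖A1 - B1‖ ≤ c) (nZ : c < 2 * ‖Z‖) :
    (b12 * v ≤ b13 * u ∧ b13 < 2 * (b13 * u + v * (1 - b12))) ∨
    (b13 * u ≤ b12 * v ∧ b12 < 2 * (b12 * v + u * (1 - b13))) := by
  have hb : b13 = 1 + β - b12 := by linarith
  rcases le_total (b12 * v) (b13 * u) with h | h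
  · left
    refine ⟨h, ?_⟩
    have := cone (A1 := A1) (A2 := A2) (A3 := A3) (U := A1 - A2) (V := A1 - B1) (Z := Z)
      (u1 := 1) (u2 := -1) (v1 := 1 + β) (v2 := -b12) (z1 := u + v) (z2 := -u) hc
      (by module) (by rw [hB, hb]; module) (by rw [hZ]; module) n12 nB nZ
      (by nlinarith) (by nlinarith) (by nlinarith)
    nlinarith
  · right
    refine ⟨h, ?_⟩
    have := cone (A1 := A1) (A2 := A2) (A3 := A3) (U := A1 - B1) (V := A1 - A3) (Z := Z)
      (u1 := 1 + β) (u2 := -b12) (v1 := 1) (v2 := 0) (z1 := u + v) (z2 := -u) hc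
      (by rw [hB, hb]; module) (by module) (by rw [hZ]; module) nB n13 nZ
      (by nlinarith) (by nlinarith) (by nlinarith)
    nlinarith

/-- Norm of a vector with small triangle coordinates: at least one coordinate is large. -/
lemma hex {c : ℝ} (hc : 0 < c) {A1 A2 A3 Z : E} {x y z : ℝ} (hs : x + y + z = 0)
    (hZ : Z = x • A1 + y • A2 + z • A3)
    (n12 : ‖A1 - A2‖ ≤ c) (n13 : ‖A1 - A3‖ ≤ c) (n23 : ‖A2 - A3‖ ≤ c) (nZ : c < 2 * ‖Z‖)
    (hx : |x| ≤ 1 / 2) (hy : |y| ≤ 1 / 2) (hz : |z| ≤ 1 / 2) : False := by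
  -- auxiliary: x = -(y+z) with y z ≤ 0 of the same sign
  have aux : ∀ (P Q R : E) (s t : ℝ), 0 ≤ s → 0 ≤ t → s + t ≤ 1 / 2 → ‖P - Q‖ ≤ c → ‖P - R‖ ≤ c →
      ‖Z‖ = ‖(s + t) • P - s • Q - t • R‖ → False := by
    intro P Q R s t h1 h2 h3 n1 n2 h4
    have e : (s + t) • P - s • Q - t • R = s • (P - Q) + t • (P - R) := by module
    have h5 : ‖Z‖ ≤ s * c + t * c := by
      rw [h4, e]
      calc ‖s • (P - Q) + t • (P - R)‖ ≤ ‖s • (P - Q)‖ + ‖t • (P - R)‖ := norm_add_le _ _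
        _ = s * ‖P - Q‖ + t * ‖P - R‖ := by
            rw [norm_smul, norm_smul, Real.norm_of_nonneg h1, Real.norm_of_nonneg h2]
        _ ≤ s * c + t * c :=
            add_le_add (mul_le_mul_of_nonneg_left n1 h1) (mul_le_mul_of_nonneg_left n2 h2)
    nlinarith
  have n21 : ‖A2 - A1‖ ≤ c := by rw [norm_sub_rev]; exact n12
  have n31 : ‖A3 - A1‖ ≤ c := by rw [norm_sub_rev]; exact n13
  have n32 : ‖A3 - A2‖ ≤ c := by rw [norm_sub_rev]; exact n23
  rw [abs_le] at hx hy hz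
  have hx' : x = -y - z := by linarith
  have hy' : y = -x - z := by linarith
  have hz' : z = -x - y := by linarith
  rcases le_total 0 x with h1 | h1 <;> rcases le_total 0 y with h2 | h2 <;>
    rcases le_total 0 z with h3 | h3
  · -- all ≥ 0
    exact aux A1 A2 A3 y z h2 h3 (by linarith) n12 n13 (by
      rw [hZ]
      have e1 : x = 0 := by linarith
      have e2 : y = 0 := by linarith
      have e3 : z = 0 := by linarith
      rw [e1, e2, e3]; simp)
  · -- x,y ≥ 0, z ≤ 0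
    exact aux A3 A1 A2 x y h1 h2 (by linarith) n31 n32 (by
      rw [hZ, ← norm_neg, hz']; congr 1; module)
  · exact aux A2 A1 A3 x z h1 h3 (by linarith) n21 n23 (by
      rw [hZ, ← norm_neg, hy']; congr 1; module)
  · exact aux A1 A2 A3 (-y) (-z) (by linarith) (by linarith) (by linarith) n12 n13 (by
      rw [hZ, hx']; congr 1; module)
  · exact aux A1 A2 A3 y z h2 h3 (by linarith) n12 n13 (by
      rw [hZ, ← norm_neg, hx']; congr 1; module)
  · exact aux A2 A1 A3 (-x) (-z) (by linarith) (by linarith) (by linarith) n21 n23 (by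
      rw [hZ, hy']; congr 1; module)
  · exact aux A3 A1 A2 (-x) (-y) (by linarith) (by linarith) (by linarith) n31 n32 (by
      rw [hZ, hz']; congr 1; module)
  · exact aux A1 A2 A3 y z (by linarith) (by linarith) (by linarith) n12 n13 (by
      rw [hZ]
      have e1 : x = 0 := by linarith
      have e2 : y = 0 := by linarith
      have e3 : z = 0 := by linarith
      rw [e1, e2, e3]; simp)

/-- A point in the closed triangle at distance more than `c/2` from `A1` has first coordinate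
less than `1/2`. -/
lemma inside_lt {c : ℝ} (hc : 0 < c) {A1 A2 A3 X : E} {x y z : ℝ} (hs : x + y + z = 1)
    (hX : X = x • A1 + y • A2 + z • A3) (hy : 0 ≤ y) (hz : 0 ≤ z)
    (n12 : ‖A1 - A2‖ ≤ c) (n13 : ‖A1 - A3‖ ≤ c) (nX : c < 2 * ‖A1 - X‖) : x < 1 / 2 := by
  have hx : x = 1 - y - z := by linarith
  have e : A1 - X = y • (A1 - A2) + z • (A1 - A3) := by rw [hX, hx]; module
  have h5 : ‖A1 - X‖ ≤ y * c + z * c := by
    rw [e]
    calc ‖y • (A1 - A2) + z • (A1 - A3)‖ ≤ ‖y • (A1 - A2)‖ + ‖z • (A1 - A3)‖ := norm_add_le _ _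
      _ = y * ‖A1 - A2‖ + z * ‖A1 - A3‖ := by
          rw [norm_smul, norm_smul, Real.norm_of_nonneg hy, Real.norm_of_nonneg hz]
      _ ≤ y * c + z * c :=
          add_le_add (mul_le_mul_of_nonneg_left n12 hy) (mul_le_mul_of_nonneg_left n13 hz)
  nlinarith

/-- A point beyond the side `A2A3` within the opposite triangle is more than halfway. -/
lemma outer_gt {c : ℝ} (hc : 0 < c) {A1 A2 A3 B : E} {β x y : ℝ} (hs : x + y = 1 + β)
    (hB : B = -β • A1 + x • A2 + y • A3) (hβ : 0 ≤ β) (hx : x ≤ 1)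
    (n13 : ‖A1 - A3‖ ≤ c) (n23 : ‖A2 - A3‖ ≤ c) (nB : c < 2 * ‖A2 - B‖) : 1 / 2 < y := by
  have hy : y = 1 + β - x := by linarith
  have e : A2 - B = β • (A1 - A3) + (1 - x) • (A2 - A3) := by rw [hB, hy]; module
  have hx' : 0 ≤ 1 - x := by linarith
  have h5 : ‖A2 - B‖ ≤ β * c + (1 - x) * c := by
    rw [e]
    calc ‖β • (A1 - A3) + (1 - x) • (A2 - A3)‖ ≤ ‖β • (A1 - A3)‖ + ‖(1 - x) • (A2 - A3)‖ :=
          norm_add_le _ _
      _ = β * ‖A1 - A3‖ + (1 - x) * ‖A2 - A3‖ := by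
          rw [norm_smul, norm_smul, Real.norm_of_nonneg hβ, Real.norm_of_nonneg hx']
      _ ≤ β * c + (1 - x) * c :=
          add_le_add (mul_le_mul_of_nonneg_left n13 hβ) (mul_le_mul_of_nonneg_left n23 hx')
  nlinarith

end Pool.Agent.MinkSeven
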